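import Pool.Agent.MP_dd9dc3_ag.Defs

-- part MP_dd9dc3_ag.Val
section

/-!
Valuations of height one primes and the algebraic Hartogs lemma.
-/

namespace Pool.Agent.MP_dd9dc3_ag

open WithZero

/-- A prime that is locally generated by one element defines a discrete valuation. -/
theorem exists_val {A K : Type*} [CommRing A] [IsDomain A] [IsNoetherianRing A] [Field K]
    [Algebra A K] [IsFractionRing A K] (p : Ideal A) [hp : p.IsPrime] {π : A} (hπ : π ∈ p)
    (hπ0 : π ≠ 0) (H : ∀ b ∈ p, ∃ e c : A, e ∉ p ∧ e * b = c * π) :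
    p.height = 1 ∧ ∃ v : Valuation K (WithZero (Multiplicative ℤ)), Function.Surjective v ∧
      v (algebraMap A K π) = exp (-1) ∧
      ∀ f : K, v f ≤ 1 ↔ ∃ a b : A, b ∉ p ∧ f * algebraMap A K b = algebraMap A K a := by
  constructor
  · apply le_antisymm
    · refine Ideal.height_le_one_of_isPrincipal_of_mem_minimalPrimes (Ideal.span {π}) p
        ⟨⟨hp, (Ideal.span_singleton_le_iff_mem _).2 hπ⟩, ?_⟩
      rintro q ⟨hq, hq'⟩ hqp b hb
      obtain ⟨e, c, he, h⟩ := H b hb
      have h1 : e * b ∈ q := by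
        rw [h]
        exact q.mul_mem_left _ ((Ideal.span_singleton_le_iff_mem _).1 hq')
      exact (hq.mem_or_mem h1).resolve_left fun h2 => he (hqp h2)
    · rw [Order.one_le_iff_ne_zero, Ne, Ideal.height_eq_zero_iff_eq_bot]
      rintro rfl
      exact hπ0 hπ
  have hS : p.primeCompl ≤ nonZeroDivisors A := p.primeCompl_le_nonZeroDivisors
  let L := Localization.subalgebra.ofField K p.primeCompl hS
  have : IsLocalization.AtPrime L p := Localization.subalgebra.isLocalization_ofField K _ hS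
  have : IsLocalRing L := IsLocalization.AtPrime.isLocalRing L p
  have : IsNoetherianRing L := IsLocalization.isNoetherianRing p.primeCompl L inferInstance
  have hinj : Function.Injective (algebraMap A L) := IsLocalization.injective L hS
  have hm : IsLocalRing.maximalIdeal L = Ideal.span {algebraMap A L π} := by
    rw [← IsLocalization.AtPrime.map_eq_maximalIdeal p L]
    apply le_antisymm
    · rw [Ideal.map_le_iff_le_comap]
      intro b hb
      obtain ⟨e, c, he, h⟩ := H b hb
      obtain ⟨u, hu⟩ := IsLocalization.map_units L (⟨e, he⟩ : p.primeCompl)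
      rw [Ideal.mem_comap, Ideal.mem_span_singleton']
      refine ⟨↑u⁻¹ * algebraMap A L c, ?_⟩
      rw [mul_assoc, ← map_mul, ← h, map_mul, ← mul_assoc]
      have : (u : L) = algebraMap A L e := hu
      rw [← this, Units.inv_mul, one_mul]
    · rw [Ideal.span_singleton_le_iff_mem]
      exact Ideal.mem_map_of_mem _ hπ
  have hπL : algebraMap A L π ≠ 0 := fun h => hπ0 (hinj (by rw [h, map_zero]))
  have hnf : ¬IsField L := by
    rw [IsLocalRing.isField_iff_maximalIdeal_eq, hm, Ideal.span_singleton_eq_bot]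
    exact hπL
  have : IsDiscreteValuationRing L :=
    ((IsDiscreteValuationRing.TFAE L hnf).out 4 0).1 (show (IsLocalRing.maximalIdeal L).IsPrincipal
      from ⟨⟨_, hm⟩⟩)
  refine ⟨(IsDiscreteValuationRing.maximalIdeal L).valuation K,
    IsDedekindDomain.HeightOneSpectrum.valuation_surjective K _, ?_, fun f => ⟨fun h => ?_, ?_⟩⟩
  · rw [IsScalarTower.algebraMap_apply A L K,
      IsDedekindDomain.HeightOneSpectrum.valuation_of_algebraMap]
    exact IsDedekindDomain.HeightOneSpectrum.intValuation_singleton _ hπL hm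
  · obtain ⟨⟨g, a, s, hs, rfl⟩, rfl⟩ := IsDiscreteValuationRing.exists_lift_of_le_one h
    refine ⟨a, s, hs, ?_⟩
    have : algebraMap A K s ≠ 0 :=
      IsFractionRing.to_map_ne_zero_of_mem_nonZeroDivisors (hS hs)
    change algebraMap A K a * (algebraMap A K s)⁻¹ * algebraMap A K s = _
    rw [inv_mul_cancel_right₀ this]
  · rintro ⟨a, b, hb, h⟩
    have : algebraMap A K b ≠ 0 :=
      IsFractionRing.to_map_ne_zero_of_mem_nonZeroDivisors (hS hb)
    have hf : f ∈ L := ⟨a, b, hb, by rw [← h, mul_inv_cancel_right₀ this]⟩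
    exact IsDedekindDomain.HeightOneSpectrum.valuation_le_one _ (⟨f, hf⟩ : L)

/-- Algebraic Hartogs lemma on the open set g ≠ 0. -/
theorem hartogs {A K : Type*} [CommRing A] [IsDomain A] [IsNoetherianRing A]
    [IsIntegrallyClosed A] [Field K] [Algebra A K] [IsFractionRing A K] (ψ : K) (g : A)
    (H : ∀ (p : Ideal A) (π : A), p.IsPrime → g ∉ p → π ∈ p → π ≠ 0 →
      (∀ b ∈ p, ∃ e c : A, e ∉ p ∧ e * b = c * π) →
      ∃ a b : A, b ∉ p ∧ ψ * algebraMap A K b = algebraMap A K a) :
    ∃ (N : ℕ) (a : A), ψ * algebraMap A K (g ^ N) = algebraMap A K a := by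
  by_contra hcon
  have hinj := IsFractionRing.injective A K
  let J : A → Ideal A := fun c =>
    { carrier := {b | ∃ a : A, ψ * algebraMap A K (c * b) = algebraMap A K a}
      add_mem' := by
        rintro b b' ⟨a, ha⟩ ⟨a', ha'⟩
        exact ⟨a + a', by rw [mul_add, map_add, mul_add, ha, ha', map_add]⟩
      zero_mem' := ⟨0, by simp⟩
      smul_mem' := by
        rintro r b ⟨a, ha⟩
        refine ⟨r * a, ?_⟩
        rw [map_mul _ r, ← ha, smul_eq_mul]
        simp only [map_mul]
        ring }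
  have hJ : ∀ c b, b ∈ J c ↔ ∃ a : A, ψ * algebraMap A K (c * b) = algebraMap A K a :=
    fun _ _ => Iff.rfl
  obtain ⟨p, ⟨c, hc, rfl⟩, hmax⟩ := set_has_maximal_iff_noetherian.2
    (inferInstance : IsNoetherian A A) {I | ∃ c : A, (∀ N : ℕ, g ^ N ∉ J c) ∧ I = J c}
    ⟨J 1, 1, fun N h => hcon ⟨N, by simpa [hJ] using h⟩, rfl⟩
  have hle : ∀ d, J c ≤ J (c * d) := by
    intro d b hb
    have := (J c).mul_mem_left d hb
    rw [hJ] at this ⊢
    rwa [mul_assoc]
  have heq : ∀ d, (∀ N : ℕ, g ^ N ∉ J (c * d)) → J (c * d) = J c := by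
    intro d hd
    by_contra hne
    exact hmax _ ⟨_, hd, rfl⟩ (lt_of_le_of_ne (hle d) (Ne.symm hne))
  have hsat : ∀ (N : ℕ) b, g ^ N * b ∈ J c → b ∈ J c := by
    intro N b hb
    rw [← heq (g ^ N) fun M h => hc (N + M) (by rw [hJ] at h ⊢; rwa [pow_add, ← mul_assoc])]
    rw [hJ] at hb ⊢
    rwa [mul_assoc]
  have h1 : (1 : A) ∉ J c := by simpa using hc 0
  have hprime : (J c).IsPrime := by
    refine ⟨(Ideal.ne_top_iff_one _).2 h1, fun {a b} hab => ?_⟩
    by_cases hb : ∀ N : ℕ, g ^ N ∉ J (c * b)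
    · left
      rw [← heq b hb]
      rw [hJ] at hab ⊢
      rwa [mul_assoc, mul_comm b a]
    · right
      push Not at hb
      obtain ⟨N, hN⟩ := hb
      refine hsat N b ?_
      rw [hJ] at hN ⊢
      rwa [mul_comm (g ^ N), ← mul_assoc]
  have hg : g ∉ J c := by simpa using hc 1
  have hne : J c ≠ ⊥ := by
    obtain ⟨a, b, hb, rfl⟩ := IsFractionRing.div_surjective (A := A) ψ
    have hb' : algebraMap A K b ≠ 0 := IsFractionRing.to_map_ne_zero_of_mem_nonZeroDivisors hb
    refine (Submodule.ne_bot_iff _).2 ⟨b, ⟨c * a, ?_⟩, nonZeroDivisors.ne_zero hb⟩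
    simp only [map_mul]
    field_simp
  have key : ∃ π ∈ J c, ∃ e : A, e ∉ J c ∧ ψ * algebraMap A K (c * π) = algebraMap A K e := by
    by_contra hn
    push Not at hn
    have hint : IsIntegral A (ψ * algebraMap A K c) := by
      refine isIntegral_of_smul_mem_submodule (A := K) (M := K)
        (Submodule.map (Algebra.linearMap A K) (J c)) ?_ ((IsNoetherian.noetherian (J c)).map _) _ ?_
      · obtain ⟨b, hb, hb0⟩ := (Submodule.ne_bot_iff _).1 hne
        exact (Submodule.ne_bot_iff _).2 ⟨algebraMap A K b, ⟨b, hb, rfl⟩,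
          fun h => hb0 (hinj (by rw [h, map_zero]))⟩
      · rintro _ ⟨b, hb, rfl⟩
        obtain ⟨a, ha⟩ := (hJ _ _).1 hb
        refine ⟨a, ?_, ?_⟩
        · by_contra h
          exact hn b hb a h ha
        · simp only [Algebra.linearMap_apply, smul_eq_mul]
          rw [← ha, map_mul, mul_assoc]
    obtain ⟨a, ha⟩ := IsIntegrallyClosed.isIntegral_iff.1 hint
    exact h1 ⟨a, by rw [mul_one, ha]⟩
  obtain ⟨π, hπ, e, he, hπe⟩ := key
  have hπ0 : π ≠ 0 := by
    rintro rfl
    apply he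
    have : e = 0 := hinj (by rw [← hπe]; simp)
    rw [this]
    exact (J c).zero_mem
  obtain ⟨a, b, hb, hab⟩ := H (J c) π hprime hg hπ hπ0 (by
    intro b hb
    obtain ⟨a, ha⟩ := (hJ _ _).1 hb
    refine ⟨e, a, he, hinj ?_⟩
    rw [map_mul, map_mul, ← ha, ← hπe]
    simp only [map_mul]
    ring)
  exact hb ⟨c * a, by rw [map_mul, map_mul, ← hab]; ring⟩

end Pool.Agent.MP_dd9dc3_ag

end

-- part MP_dd9dc3_ag.Clos
section

/-!
The integral closure of a polynomial subring; transcendence bases; the basis of the differentials.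
-/

namespace Pool.Agent.MP_dd9dc3_ag

open scoped IntermediateField.algebraAdjoinAdjoin

variable {k K : Type*} [Field k] [Field K] [Algebra k K]

/-- The integral closure of k[z0, z1, z2] in K. -/
noncomputable def clos (k : Type*) [Field k] [Algebra k K] (z : Fin 3 → K) : Subalgebra k K :=
  (integralClosure (Algebra.adjoin k (Set.range z)) K).restrictScalars k

theorem mem_clos {z : Fin 3 → K} {f : K} :
    f ∈ clos k z ↔ IsIntegral (Algebra.adjoin k (Set.range z)) f := Iff.rfl

theorem adjoin_le_clos (z : Fin 3 → K) : Algebra.adjoin k (Set.range z) ≤ clos k z :=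
  fun f hf => mem_clos.2 (isIntegral_algebraMap (x := (⟨f, hf⟩ : Algebra.adjoin k (Set.range z))))

theorem gen_mem_clos (z : Fin 3 → K) (i : Fin 3) : z i ∈ clos k z :=
  adjoin_le_clos z (Algebra.subset_adjoin ⟨i, rfl⟩)

/-- An element integral over a subalgebra of clos lies in clos. -/
theorem mem_clos_of_integral {z : Fin 3 → K} {S : Subalgebra k K} (hS : S ≤ clos k z) {f : K}
    (hf : IsIntegral S f) : f ∈ clos k z := by
  have h1 : IsIntegral (clos k z) f := by
    let _ : Algebra S (clos k z) := (Subalgebra.inclusion hS).toAlgebra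
    have : IsScalarTower S (clos k z) K := IsScalarTower.of_algebraMap_eq fun _ => rfl
    exact hf.tower_top
  have h2 : IsIntegral (integralClosure (Algebra.adjoin k (Set.range z)) K) f := h1
  exact mem_clos.2 (isIntegral_trans f h2)

theorem krull_of_integral {P A : Type*} [CommRing P] [CommRing A] [Algebra P A] [FaithfulSMul P A]
    [Algebra.IsIntegral P A] [Algebra.HasGoingDown P A] : ringKrullDim A = ringKrullDim P := by
  apply le_antisymm
  · refine Order.krullDim_le_of_strictMono (PrimeSpectrum.comap (algebraMap P A)) ?_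
    intro I J h
    exact Ideal.IsIntegral.comap_lt_comap (R := P) (I := I.asIdeal) (J := J.asIdeal) h
  · refine iSup_le fun l => ?_
    obtain ⟨⟨Q, hQ, hQ'⟩⟩ := Ideal.nonempty_primesOver (S := A) l.last.asIdeal
    obtain ⟨L, hL, -⟩ := Ideal.exists_ltSeries_of_hasGoingDown l Q
    rw [← hL]
    exact Order.LTSeries.length_le_krullDim L

theorem clos_model [CharZero k] [Algebra.EssFiniteType k K] {z : Fin 3 → K}
    (hz : IsTranscendenceBasis k z) :
    IsModel (clos k z) ∧ IsNoetherianRing (clos k z) ∧ ringKrullDim (clos k z) = 3 ∧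
      ∀ p : Ideal (clos k z), p.IsPrime → p.height = 1 →
        (⟨z 0, gen_mem_clos z 0⟩ : clos k z) ∈ p → (⟨z 1, gen_mem_clos z 1⟩ : clos k z) ∉ p := by
  let P := Algebra.adjoin k (Set.range z)
  let E := IntermediateField.adjoin k (Set.range z)
  let e : MvPolynomial (Fin 3) k ≃ₐ[k] P := hz.1.aevalEquiv
  have : IsNoetherianRing P := isNoetherianRing_of_ringEquiv _ e.toRingEquiv
  have : IsIntegrallyClosed (MvPolynomial (Fin 3) k) :=
    UniqueFactorizationMonoid.instIsIntegrallyClosed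
  have : IsIntegrallyClosed P := IsIntegrallyClosed.of_equiv e.toRingEquiv
  have : Algebra.IsAlgebraic E K := hz.isAlgebraic_field
  have : Algebra.EssFiniteType E K := .of_comp k _ _
  have : Module.Finite E K := Algebra.finite_of_essFiniteType_of_isAlgebraic
  have : CharZero E := algebraRat.charZero _
  have : Algebra.IsSeparable E K := Algebra.IsAlgebraic.isSeparable_of_perfectField
  let _ : Algebra P (clos k z) := (Subalgebra.inclusion (adjoin_le_clos z)).toAlgebra
  have : IsScalarTower P (clos k z) K := IsScalarTower.of_algebraMap_eq fun _ => rfl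
  have : IsScalarTower k P (clos k z) := IsScalarTower.of_algebraMap_eq fun _ => rfl
  have : IsIntegralClosure (clos k z) P K :=
    ⟨Subtype.val_injective, fun {f} => ⟨fun h => ⟨⟨f, mem_clos.2 h⟩, rfl⟩,
      fun ⟨g, hg⟩ => hg ▸ mem_clos.1 g.2⟩⟩
  have hfin : Module.Finite P (clos k z) := IsIntegralClosure.finite P E K _
  have hN : IsNoetherianRing (clos k z) := IsIntegralClosure.isNoetherianRing P E K _
  have hfr : IsFractionRing (clos k z) K := IsIntegralClosure.isFractionRing_of_finite_extension P E K _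
  have hic : IsIntegrallyClosed (clos k z) := 
    (isIntegrallyClosed_iff K).2 fun {f} hf => ⟨⟨f, mem_clos_of_integral le_rfl hf⟩, rfl⟩
  have : FaithfulSMul P (clos k z) := Subalgebra.inclusion.faithfulSMul (adjoin_le_clos z)
  have hP : Algebra.FiniteType k P := .adjoin_of_finite (Set.finite_range z)
  have hft : Algebra.FiniteType k (clos k z) := hP.trans inferInstance
  refine ⟨⟨(Subalgebra.fg_iff_finiteType _).2 hft, hic, hfr⟩, hN, ?_, ?_⟩
  · rw [krull_of_integral (P := P), ← ringKrullDim_eq_of_ringEquiv e.toRingEquiv,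
      MvPolynomial.ringKrullDim_of_isNoetherianRing, ringKrullDim_eq_zero_of_field]
    simp
  · intro p hp h1 h0 h2
    have hq := Ideal.height_eq_height_add_of_liesOver_of_hasGoingDown (p.under P) p
    have m0 : e (MvPolynomial.X 0) ∈ p.under P := by
      rw [Ideal.under_def, Ideal.mem_comap]
      convert h0 using 1
      exact Subtype.ext ((hz.1.algebraMap_aevalEquiv _).trans (MvPolynomial.aeval_X _ _))
    have m1 : e (MvPolynomial.X 1) ∈ p.under P := by
      rw [Ideal.under_def, Ideal.mem_comap]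
      convert h2 using 1
      exact Subtype.ext ((hz.1.algebraMap_aevalEquiv _).trans (MvPolynomial.aeval_X _ _))
    have pr : Prime (e (MvPolynomial.X 0)) := (MulEquiv.prime_iff e).2 MvPolynomial.X_prime
    have hq1 : (p.under P).height = 1 := by
      apply le_antisymm
      · rw [← h1, hq]
        exact le_self_add
      · rw [Order.one_le_iff_ne_zero, Ne, Ideal.height_eq_zero_iff_eq_bot]
        intro h
        rw [h] at m0
        exact pr.ne_zero m0
    rw [Ideal.eq_span_singleton_of_height_eq_one hq1 m0 pr, Ideal.mem_span_singleton,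
      map_dvd_iff, MvPolynomial.X_dvd_X] at m1
    exact absurd m1 (by decide)

/-- The differentials of a transcendence basis form a basis. -/
theorem exists_basis [CharZero k] {z : Fin 3 → K} (hz : IsTranscendenceBasis k z) :
    ∃ b : Module.Basis (Fin 3) K (KaehlerDifferential k K),
      ∀ i, b i = KaehlerDifferential.D k K (z i) := by
  let E := IntermediateField.adjoin k (Set.range z)
  let P := MvPolynomial (Fin 3) k
  let _ : Algebra P K := (MvPolynomial.aeval z : P →ₐ[k] K).toRingHom.toAlgebra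
  have : IsScalarTower k P K := IsScalarTower.of_algebraMap_eq fun c => by
    change _ = MvPolynomial.aeval z (algebraMap k P c)
    rw [AlgHom.commutes]
  have : FaithfulSMul P K := (faithfulSMul_iff_algebraMap_injective _ _).2 hz.1
  let _ : Algebra (FractionRing P) K := FractionRing.liftAlgebra P K
  have : Algebra.IsAlgebraic P K := by
    have h := hz.isAlgebraic
    refine (Algebra.isAlgebraic_ringHom_iff_of_comp_eq hz.1.aevalEquiv (RingEquiv.refl K) ?_).1 h
    ext c <;> simp [RingHom.algebraMap_toAlgebra]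
  have : Algebra.IsAlgebraic (FractionRing P) K := 
    Algebra.IsAlgebraic.extendScalars (IsFractionRing.injective P (FractionRing P))
  have : CharZero (FractionRing P) := algebraRat.charZero _
  have : Algebra.IsSeparable (FractionRing P) K := Algebra.IsAlgebraic.isSeparable_of_perfectField
  have : Algebra.FormallyEtale P (FractionRing P) := .of_isLocalization (nonZeroDivisors P)
  have : Algebra.FormallyEtale (FractionRing P) K := .of_isSeparable _ _
  have : Algebra.FormallyEtale P K := .comp P (FractionRing P) K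
  refine ⟨((KaehlerDifferential.mvPolynomialBasis k (Fin 3)).baseChange K).map
    (KaehlerDifferential.tensorKaehlerEquivOfFormallyEtale k P K), fun i => ?_⟩
  have : z i = algebraMap P K (MvPolynomial.X i) := by
    change _ = MvPolynomial.aeval z (MvPolynomial.X i)
    rw [MvPolynomial.aeval_X]
  rw [this, Module.Basis.map_apply, ← LinearEquiv.eq_symm_apply,
    KaehlerDifferential.tensorKaehlerEquivOfFormallyEtale_symm_D_algebraMap]
  simp
  rfl

end Pool.Agent.MP_dd9dc3_ag

end

-- part MP_dd9dc3_ag.Form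
section

/-!
Top forms in coordinates: Jacobians, regular multiples of a fixed form, logarithmic forms.
-/

namespace Pool.Agent.MP_dd9dc3_ag

open WithZero

variable {k K : Type*} [Field k] [Field K] [Algebra k K]

/-- The Jacobian determinant of three functions with respect to three derivations. -/
def jac (d0 d1 d2 : Derivation k K K) (a b c : K) : K :=
  d0 a * (d1 b * d2 c - d1 c * d2 b) - d0 b * (d1 a * d2 c - d1 c * d2 a) +
    d0 c * (d1 a * d2 b - d1 b * d2 a)

/-- w is a nonzero top form dual to the three derivations. -/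
def Frame (d0 d1 d2 : Derivation k K K) (w : Form k K 3) : Prop :=
  w ≠ 0 ∧ ∀ f : Fin 3 → K, dform k f = jac d0 d1 d2 (f 0) (f 1) (f 2) • w

theorem exists_frame [CharZero k] {x t s : K} (hz : IsTranscendenceBasis k ![x, t, s]) :
    ∃ d0 d1 d2 : Derivation k K K, Frame d0 d1 d2 (dform k ![x, t, s]) ∧
      (d0 x = 1 ∧ d0 t = 0 ∧ d0 s = 0) ∧ (d1 x = 0 ∧ d1 t = 1 ∧ d1 s = 0) ∧
      (d2 x = 0 ∧ d2 t = 0 ∧ d2 s = 1) := by
  obtain ⟨b, hb⟩ := exists_basis hz
  obtain ⟨d, hdd⟩ : ∃ d : Fin 3 → Derivation k K K,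
    ∀ i f, d i f = b.repr (KaehlerDifferential.D k K f) i :=
    ⟨fun i => (b.coord i).compDer (KaehlerDifferential.D k K), fun _ _ => rfl⟩
  have hd : ∀ i j, d i (![x, t, s] j) = if j = i then 1 else 0 := by
    intro i j
    rw [hdd, ← hb, Module.Basis.repr_self, Finsupp.single_apply]
  have key : ∀ (e : Derivation k K K) (f : K), e f = d 0 f * e x + d 1 f * e t + d 2 f * e s := by
    intro e f
    have := congrArg e.liftKaehlerDifferential (b.sum_repr (KaehlerDifferential.D k K f))
    rw [Fin.sum_univ_three, hb, hb, hb] at this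
    simp only [map_add, map_smul, Derivation.liftKaehlerDifferential_comp_D, smul_eq_mul,
      ← hdd] at this
    exact this.symm
  refine ⟨d 0, d 1, d 2, ⟨fun h => ?_, fun f => funext fun e => ?_⟩,
    ⟨hd 0 0, hd 0 1, hd 0 2⟩, ⟨hd 1 0, hd 1 1, hd 1 2⟩, ⟨hd 2 0, hd 2 1, hd 2 2⟩⟩
  · have := congrFun h d
    simp only [dform, hd, Matrix.det_fin_three, Matrix.of_apply] at this
    simp at this
  · simp only [dform, Matrix.det_fin_three, Matrix.of_apply, Pi.smul_apply, smul_eq_mul, jac]
    rw [key (e 0) (f 0), key (e 0) (f 1), key (e 0) (f 2), key (e 1) (f 0), key (e 1) (f 1),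
      key (e 1) (f 2), key (e 2) (f 0), key (e 2) (f 1), key (e 2) (f 2)]
    simp only [Matrix.cons_val_zero, Matrix.cons_val_one, Matrix.cons_val_two, Matrix.head_cons,
      Matrix.tail_cons]
    ring

section

variable {v : Valuation K (WithZero (Multiplicative ℤ))} {d0 d1 d2 : Derivation k K K}
  {w : Form k K 3}

/-- c w is regular along v. -/
def Rg (v : Valuation K (WithZero (Multiplicative ℤ))) (w : Form k K 3)
    (c : K) : Prop := c • w ∈ regForms k 3 v

theorem Rg.add {a b : K} (ha : Rg v w a) (hb : Rg v w b) : Rg v w (a + b) := by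
  unfold Rg
  rw [add_smul]
  exact add_mem ha hb

theorem Rg.mul {a b : K} (ha : v a ≤ 1) (hb : Rg v w b) : Rg v w (a * b) := by
  unfold Rg at hb ⊢
  rw [mul_smul]
  generalize b • w = u at hb
  induction hb using AddSubgroup.closure_induction with
  | mem u hu =>
    obtain ⟨c, f, hc, hf, rfl⟩ := hu
    exact AddSubgroup.subset_closure ⟨a * c, f, mul_mem (s := v.integer) ha hc, hf,
      (mul_smul _ _ _).symm⟩
  | zero => rw [smul_zero]; exact zero_mem _
  | add u u' _ _ ih ih' => rw [smul_add]; exact add_mem ih ih'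
  | neg u _ ih => rw [smul_neg]; exact neg_mem ih

theorem Frame.rg (h : Frame d0 d1 d2 w) {a b c : K} (ha : v a ≤ 1) (hb : v b ≤ 1) (hc : v c ≤ 1) :
    Rg v w (jac d0 d1 d2 a b c) := by
  refine AddSubgroup.subset_closure ⟨1, ![a, b, c], (map_one v).le, fun i => ?_,
    by rw [one_smul]; exact (h.2 ![a, b, c]).symm⟩
  fin_cases i <;> assumption

theorem Frame.le (h : Frame d0 d1 d2 w) {γ : WithZero (Multiplicative ℤ)}
    (H : ∀ a b c, v a ≤ 1 → v b ≤ 1 → v c ≤ 1 → v (jac d0 d1 d2 a b c) ≤ γ) {c : K}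
    (hc : Rg v w c) : v c ≤ γ := by
  have key : ∀ u ∈ regForms k 3 v, ∃ e, v e ≤ γ ∧ u = e • w := by
    intro u hu
    induction hu using AddSubgroup.closure_induction with
    | mem u hu =>
      obtain ⟨a, f, ha, hf, rfl⟩ := hu
      refine ⟨a * jac d0 d1 d2 (f 0) (f 1) (f 2), ?_, by rw [h.2 f, mul_smul]⟩
      rw [map_mul]
      exact (mul_le_of_le_one_left' ha).trans (H _ _ _ (hf 0) (hf 1) (hf 2))
    | zero => exact ⟨0, by simp, by simp⟩
    | add u u' _ _ ih ih' =>
      obtain ⟨e, he, rfl⟩ := ih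
      obtain ⟨e', he', rfl⟩ := ih'
      exact ⟨e + e', v.map_add_le he he', (add_smul _ _ _).symm⟩
    | neg u _ ih =>
      obtain ⟨e, he, rfl⟩ := ih
      exact ⟨-e, by rwa [v.map_neg], (neg_smul _ _).symm⟩
  obtain ⟨e, he, h'⟩ := key _ hc
  rwa [smul_left_injective K h.1 h']

theorem ord_le_iff {a b : K} (ha : a ≠ 0) (hb : b ≠ 0) : ord v a ≤ ord v b ↔ v b ≤ v a := by
  unfold ord
  rw [neg_le_neg_iff, log_le_log (v.ne_zero_iff.2 hb) (v.ne_zero_iff.2 ha)]

theorem ord_mul {a b : K} (ha : a ≠ 0) (hb : b ≠ 0) : ord v (a * b) = ord v a + ord v b := by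
  unfold ord
  rw [map_mul, log_mul (v.ne_zero_iff.2 ha) (v.ne_zero_iff.2 hb), neg_add]

theorem ord_div {a b : K} (ha : a ≠ 0) (hb : b ≠ 0) : ord v (a / b) = ord v a - ord v b := by
  unfold ord
  rw [map_div₀, log_div (v.ne_zero_iff.2 ha) (v.ne_zero_iff.2 hb)]
  ring

theorem ord_pow (a : K) (n : ℕ) : ord v (a ^ n) = n * ord v a := by
  unfold ord
  rw [map_pow, log_pow]
  simp

theorem ord_congr {a b : K} (h : v a = v b) : ord v a = ord v b := by
  unfold ord
  rw [h]

theorem ord_of_one {a : K} (h : v a = 1) : ord v a = 0 := by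
  unfold ord
  rw [h, log_one, neg_zero]

theorem one_of_ord {a : K} (ha : a ≠ 0) (h : ord v a = 0) : v a = 1 := by
  unfold ord at h
  rw [← exp_log (v.ne_zero_iff.2 ha), neg_eq_zero.1 h, exp_zero]

theorem ord_pos {a : K} (ha : a ≠ 0) (h : v a < 1) : 0 < ord v a := by
  unfold ord
  rw [neg_pos, log_lt_iff_lt_exp (v.ne_zero_iff.2 ha)]
  exact h

theorem Frame.hasOrd (h : Frame d0 d1 d2 w) {κ : K} (hκ : κ ≠ 0) (h1 : Rg v w κ)
    (H : ∀ a b c, v a ≤ 1 → v b ≤ 1 → v c ≤ 1 → v (jac d0 d1 d2 a b c) ≤ v κ) :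
    HasOrd v w (-ord v κ) := by
  intro c hc
  rw [← sub_eq_add_neg, sub_nonneg, ord_le_iff hκ hc]
  refine ⟨fun h' => h.le H h', fun h' => ?_⟩
  have : c = c / κ * κ := (div_mul_cancel₀ c hκ).symm
  rw [this]
  refine Rg.mul ?_ h1
  rw [map_div₀]
  exact div_le_one_of_le₀ h' zero_le

theorem exists_ord (hv : Function.Surjective v) (n : ℤ) : ∃ c : K, c ≠ 0 ∧ ord v c = n := by
  obtain ⟨c, hc⟩ := hv (exp (-n))
  refine ⟨c, fun h => ?_, by unfold ord; rw [hc, log_exp, neg_neg]⟩
  rw [h, map_zero] at hc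
  exact exp_ne_zero hc.symm

theorem HasOrd.unique (hv : Function.Surjective v) {n m : ℤ} (hn : HasOrd v w n)
    (hm : HasOrd v w m) : n = m := by
  obtain ⟨a, ha, ha'⟩ := exists_ord hv (-n)
  obtain ⟨b, hb, hb'⟩ := exists_ord hv (-m)
  have h1 := (hm a ha).1 ((hn a ha).2 (by omega))
  have h2 := (hn b hb).1 ((hm b hb).2 (by omega))
  omega

theorem exists_log {π t : K} (hπ : π ≠ 0) (hπ' : ord v π = 1) (ht : t ≠ 0) :
    ∃ (i : ℤ) (u : K), v u = 1 ∧ ∀ d : Derivation k K K, d t = t * (i * d π / π + d u / u) := by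
  have hp : π ^ ord v t ≠ 0 := zpow_ne_zero _ hπ
  have hu : t / π ^ ord v t ≠ 0 := div_ne_zero ht hp
  refine ⟨ord v t, t / π ^ ord v t, one_of_ord hu ?_, fun d => ?_⟩
  · rw [ord_div ht hp]
    have : ord v (π ^ ord v t) = ord v t * ord v π := by
      unfold ord
      rw [map_zpow₀, log_zpow]
      simp
    rw [this, hπ']
    ring
  · rw [d.leibniz_div, d.leibniz_zpow, zpow_sub_one₀ hπ]
    simp only [smul_eq_mul, zsmul_eq_mul]
    field_simp
    ring

/-- A form db ∧ dt/t ∧ ds/s has at most a simple pole. -/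
theorem Frame.rg_log (h : Frame d0 d1 d2 w) {π b t s : K} (hπ : π ≠ 0) (hπ' : ord v π = 1)
    (hb : v b ≤ 1) (ht : t ≠ 0) (hs : s ≠ 0) : Rg v w (π / (t * s) * jac d0 d1 d2 b t s) := by
  obtain ⟨i, u, hu, hi⟩ := exists_log (k := k) hπ hπ' ht
  obtain ⟨j, r, hr, hj⟩ := exists_log (k := k) hπ hπ' hs
  have hu0 : u ≠ 0 := v.ne_zero_iff.1 (by rw [hu]; exact one_ne_zero)
  have hr0 : r ≠ 0 := v.ne_zero_iff.1 (by rw [hr]; exact one_ne_zero)
  have hπ1 : v π ≤ 1 := by
    rw [← map_one v, ← ord_le_iff one_ne_zero hπ, ord_of_one (map_one v), hπ']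
    exact zero_le_one
  have e : π / (t * s) * jac d0 d1 d2 b t s = π / (u * r) * jac d0 d1 d2 b u r +
      (i / r * jac d0 d1 d2 b π r + j / u * jac d0 d1 d2 b u π) := by
    unfold jac
    rw [hi d0, hi d1, hi d2, hj d0, hj d1, hj d2]
    field_simp
    ring
  rw [e]
  have hi1 : v (i : K) ≤ 1 := intCast_mem v.integer i
  have hj1 : v (j : K) ≤ 1 := intCast_mem v.integer j
  refine (Rg.mul ?_ (h.rg hb hu.le hr.le)).add ((Rg.mul ?_ (h.rg hb hπ1 hr.le)).add
    (Rg.mul ?_ (h.rg hb hu.le hπ1)))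
  · rwa [map_div₀, map_mul, hu, hr, mul_one, div_one]
  · rwa [map_div₀, hr, div_one]
  · rwa [map_div₀, hu, div_one]

/-- The elements of the valuation ring whose derivative lies in the valuation ring. -/
def good (v : Valuation K (WithZero (Multiplicative ℤ))) (d : Derivation k K K) : Subring K where
  carrier := {f | v f ≤ 1 ∧ v (d f) ≤ 1}
  mul_mem' := by
    rintro a b ⟨ha, ha'⟩ ⟨hb, hb'⟩
    refine ⟨mul_mem (s := v.integer) ha hb, ?_⟩
    rw [d.leibniz]
    exact add_mem (s := v.integer) (mul_mem (s := v.integer) ha hb')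
      (mul_mem (s := v.integer) hb ha')
  one_mem' := ⟨by simp, by simp⟩
  add_mem' := by
    rintro a b ⟨ha, ha'⟩ ⟨hb, hb'⟩
    refine ⟨v.map_add_le ha hb, ?_⟩
    rw [map_add]
    exact v.map_add_le ha' hb'
  zero_mem' := ⟨by simp, by simp⟩
  neg_mem' := by
    rintro a ⟨ha, ha'⟩
    exact ⟨by rwa [v.map_neg], by rwa [map_neg, v.map_neg]⟩

theorem mem_good {d : Derivation k K K} {f : K} : f ∈ good v d ↔ v f ≤ 1 ∧ v (d f) ≤ 1 := Iff.rfl

theorem good_div {d : Derivation k K K} {a b : K} (ha : a ∈ good v d) (hb : b ∈ good v d)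
    (h : v b = 1) : a / b ∈ good v d := by
  refine ⟨by rw [map_div₀, h, div_one]; exact ha.1, ?_⟩
  rw [d.leibniz_div, smul_eq_mul, map_mul, map_pow, map_inv₀, h, inv_one, one_pow, one_mul]
  exact sub_mem (H := v.integer) (mul_mem (s := v.integer) hb.1 ha.2)
    (mul_mem (s := v.integer) ha.1 hb.2)

theorem jac_le (H : ∀ f, v f ≤ 1 → v (d0 f) ≤ 1 ∧ v (d1 f) ≤ 1 ∧ v (d2 f) ≤ 1) {a b c : K}
    (ha : v a ≤ 1) (hb : v b ≤ 1) (hc : v c ≤ 1) : v (jac d0 d1 d2 a b c) ≤ 1 := by
  obtain ⟨a0, a1, a2⟩ := H a ha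
  obtain ⟨b0, b1, b2⟩ := H b hb
  obtain ⟨c0, c1, c2⟩ := H c hc
  have m : ∀ {p q : K}, v p ≤ 1 → v q ≤ 1 → v (p * q) ≤ 1 :=
    fun hp hq => mul_mem (s := v.integer) hp hq
  exact v.map_add_le (v.map_sub_le (m a0 (v.map_sub_le (m b1 c2) (m c1 b2)))
    (m b0 (v.map_sub_le (m a1 c2) (m c1 a2)))) (m c0 (v.map_sub_le (m a1 b2) (m b1 a2)))

end

end Pool.Agent.MP_dd9dc3_ag

end

-- part MP_dd9dc3_ag.Ell
section

/-!
The curve y ^ 2 = x ^ 3 + x: functions with divisor 2 ^ n (P - O), and x is not a square.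
-/

namespace Pool.Agent.MP_dd9dc3_ag

open Polynomial

variable {k F : Type*} [Field k] [Field F] [Algebra k F] {x y : F}

theorem exists_pq (hy : y ^ 2 = x ^ 3 + x) {a : F} (ha : a ∈ Algebra.adjoin k {x, y}) :
    ∃ p q : k[X], a = aeval x p + aeval x q * y := by
  induction ha using Algebra.adjoin_induction with
  | mem a ha =>
    rcases ha with rfl | rfl
    · exact ⟨X, 0, by simp⟩
    · exact ⟨0, 1, by simp⟩
  | algebraMap c => exact ⟨C c, 0, by simp⟩
  | add a b _ _ ih ih' =>
    obtain ⟨p, q, rfl⟩ := ih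
    obtain ⟨p', q', rfl⟩ := ih'
    exact ⟨p + p', q + q', by simp only [map_add]; ring⟩
  | mul a b _ _ ih ih' =>
    obtain ⟨p, q, rfl⟩ := ih
    obtain ⟨p', q', rfl⟩ := ih'
    refine ⟨p * p' + q * q' * (X ^ 3 + X), p * q' + q * p', ?_⟩
    simp only [map_add, map_mul, map_pow, aeval_X]
    linear_combination (aeval x q * aeval x q') * hy

theorem pq_mem (p q : k[X]) : aeval x p + aeval x q * y ∈ Algebra.adjoin k {x, y} := by
  have h : ∀ r : k[X], aeval x r ∈ Algebra.adjoin k {x, y} := fun r =>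
    Algebra.adjoin_mono (by simp) (aeval_mem_adjoin_singleton k x (p := r))
  exact add_mem (h p) (mul_mem (h q) (Algebra.subset_adjoin (by simp)))

theorem parity {p q G : k[X]} (hG : Odd G.natDegree) (h : p ^ 2 = q ^ 2 * G) : q = 0 := by
  by_contra hq
  have hG0 : G ≠ 0 := by
    rintro rfl
    simp at hG
  have := congrArg natDegree h
  rw [natDegree_mul (pow_ne_zero _ hq) hG0, natDegree_pow, natDegree_pow] at this
  obtain ⟨m, hm⟩ := hG
  omega

theorem deg_g : ((X : k[X]) ^ 3 + X).natDegree = 3 := by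
  compute_degree!

theorem norm_ne {p q : k[X]} (h : p ≠ 0 ∨ q ≠ 0) : p ^ 2 - q ^ 2 * (X ^ 3 + X) ≠ 0 := by
  intro h0
  have h1 := sub_eq_zero.1 h0
  have hq : q = 0 := parity (by rw [deg_g]; decide) h1
  subst hq
  have hp : p = 0 := by simpa using h1
  simp [hp] at h

theorem norm_eq (hy : y ^ 2 = x ^ 3 + x) (p q : k[X]) :
    (aeval x p + aeval x q * y) * (aeval x p + aeval x (-q) * y) =
      aeval x (p ^ 2 - q ^ 2 * (X ^ 3 + X)) := by
  simp only [map_add, map_mul, map_pow, aeval_X, map_sub, map_neg]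
  linear_combination (-(aeval x q) ^ 2) * hy

theorem aeval_ne (hx : Transcendental k x) {p : k[X]} (hp : p ≠ 0) : aeval x p ≠ 0 :=
  fun h => hx ⟨p, hp, h⟩

theorem indep (hx : Transcendental k x) (hy : y ^ 2 = x ^ 3 + x) {p q : k[X]}
    (h : aeval x p + aeval x q * y = 0) : p = 0 ∧ q = 0 := by
  by_contra hn
  refine aeval_ne hx (norm_ne (not_and_or.1 hn)) ?_
  rw [← norm_eq hy, h, zero_mul]

theorem x_ne (hx : Transcendental k x) (c : k) : x - algebraMap k F c ≠ 0 := by
  simpa using aeval_ne hx (X_sub_C_ne_zero c)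

theorem y_ne (hx : Transcendental k x) (hy : y ^ 2 = x ^ 3 + x) (p : k[X]) :
    y - aeval x p ≠ 0 := by
  intro h
  have := (indep hx hy (p := -p) (q := 1) (by rw [← h]; simp; ring)).2
  exact one_ne_zero this

theorem not_sq [IsAlgClosed k] [CharZero k] (hx : Transcendental k x) (hy : y ^ 2 = x ^ 3 + x)
    (hF : IntermediateField.adjoin k {x, y} = ⊤) (f : F) : x ≠ f ^ 2 := by
  intro hf
  obtain ⟨a, ha, b, hb, hab⟩ := (IntermediateField.mem_adjoin_iff_div (F := k) (S := {x, y})).1
    (hF ▸ IntermediateField.mem_top (x := f))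
  have hx0 : x ≠ 0 := by simpa using x_ne hx 0
  have hb0 : b ≠ 0 := by
    rintro rfl
    apply hx0
    rw [hf, hab]
    simp
  obtain ⟨p', q', rfl⟩ := exists_pq hy hb
  have hD : p' ^ 2 - q' ^ 2 * (X ^ 3 + X) ≠ 0 := by
    refine norm_ne (not_and_or.1 fun h => hb0 ?_)
    simp [h.1, h.2]
  obtain ⟨p, q, hpq⟩ := exists_pq hy (mul_mem ha (pq_mem (x := x) (y := y) p' (-q')))
  have h1 : f * aeval x (p' ^ 2 - q' ^ 2 * (X ^ 3 + X)) = aeval x p + aeval x q * y := by
    rw [← norm_eq hy, ← hpq, hab, ← mul_assoc, div_mul_cancel₀ _ hb0]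
  generalize p' ^ 2 - q' ^ 2 * (X ^ 3 + X) = D at hD h1
  obtain ⟨h2, h3⟩ := indep hx hy (p := p ^ 2 + q ^ 2 * (X ^ 3 + X) - D ^ 2 * X) (q := 2 * p * q)
    (by
      simp only [map_add, map_mul, map_pow, aeval_X, map_sub, map_ofNat]
      linear_combination (-(aeval x q) ^ 2) * hy - (aeval x D) ^ 2 * hf -
        (f * aeval x D + aeval x p + aeval x q * y) * h1)
  rcases mul_eq_zero.1 h3 with h4 | rfl
  · obtain rfl : p = 0 := by simpa using h4
    obtain ⟨i, hi⟩ := IsAlgClosed.exists_eq_mul_self (-1 : k)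
    have h5 : D * D = q * q * ((X - C i) * (X + C i)) := by
      apply mul_left_cancel₀ (X_ne_zero (R := k))
      have : C i * C i = (-1 : k[X]) := by rw [← C_mul, ← hi]; simp
      linear_combination (-1 : k[X]) * h2 + X * q ^ 2 * this
    have hq : q ≠ 0 := by
      rintro rfl
      simp [hD] at h5
    have hi2 : ¬IsRoot (X + C i) i := by
      intro h
      have h6 : (2 : k) * i = 0 := by simpa [two_mul] using h
      have : i = 0 := by simpa using h6
      simp [this] at hi
    have h6 := congrArg (rootMultiplicity i) h5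
    have h7 : (X - C i) * (X + C i) ≠ 0 := mul_ne_zero (X_sub_C_ne_zero i) (X_add_C_ne_zero i)
    rw [rootMultiplicity_mul (mul_ne_zero hD hD),
      rootMultiplicity_mul (mul_ne_zero (mul_ne_zero hq hq) h7),
      rootMultiplicity_mul (mul_ne_zero hq hq), rootMultiplicity_mul h7,
      rootMultiplicity_X_sub_C_self, rootMultiplicity_eq_zero hi2] at h6
    omega
  · exact hD (parity (p := p) (G := X) (by simp) (by linear_combination h2))

section

variable {v : Valuation F (WithZero (Multiplicative ℤ))}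

theorem v_const (hv : ∀ c : k, v (algebraMap k F c) ≤ 1) {c : k} (hc : c ≠ 0) :
    v (algebraMap k F c) = 1 := by
  refine le_antisymm (hv c) ?_
  have := hv c⁻¹
  rwa [map_inv₀, v.val_le_one_iff (inv_ne_zero ((_root_.map_ne_zero _).2 hc)), inv_inv] at this

theorem v_y_le (hy : y ^ 2 = x ^ 3 + x) (h : v x ≤ 1) : v y ≤ 1 := by
  rw [← pow_le_one_iff (n := 2) two_ne_zero, ← map_pow, hy]
  exact v.map_add_le (by rw [map_pow]; exact pow_le_one' h 3) h

theorem v_inf (hy : y ^ 2 = x ^ 3 + x) (h : 1 < v x) : v y ^ 2 = v x ^ 3 ∧ v x < v y := by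
  have h1 : v y ^ 2 = v x ^ 3 := by
    rw [← map_pow, hy, v.map_add_eq_of_lt_left, map_pow]
    rw [map_pow]
    simpa using pow_lt_pow_right₀ h (show 1 < 3 by norm_num)
  refine ⟨h1, lt_of_pow_lt_pow_left₀ 2 zero_le ?_⟩
  rw [h1]
  exact pow_lt_pow_right₀ h (by norm_num)

theorem max_shift {a b c : F} (hc : v c ≤ 1) : max (v a) (v (b + c * a)) = max (v a) (v b) := by
  have h : v (c * a) ≤ v a := by
    rw [map_mul]
    exact mul_le_of_le_one_left' hc
  apply le_antisymm
  · exact max_le (le_max_left _ _)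
      (v.map_add_le (le_max_right _ _) (h.trans (le_max_left _ _)))
  · refine max_le (le_max_left _ _) ?_
    have := v.map_sub_le (le_max_right (v a) (v (b + c * a))) (h.trans (le_max_left _ _))
    rwa [add_sub_cancel_right] at this

theorem order_step {A B l m : WithZero (Multiplicative ℤ)} (hA : A ≤ 1) (hB : B ≤ 1) (hl : l ≤ 1)
    (h : l * m = A * B ^ 2) (H : B < 1 → l = 1 ∨ m = 1) : l * max A m = max B l ^ 2 * A := by
  have hB2 : B ^ 2 ≤ B := by
    rw [sq]
    exact mul_le_of_le_one_left' hB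
  rcases hB.eq_or_lt with rfl | hB'
  · rw [one_pow, mul_one] at h
    rw [max_eq_left hl, max_eq_right (h ▸ mul_le_of_le_one_left' hl), h, one_pow, one_mul]
  · rcases H hB' with rfl | rfl
    · rw [one_mul] at h
      rw [max_eq_right hB, max_eq_left (h ▸ mul_le_of_le_one_right' (hB2.trans hB)), one_pow]
    · rw [mul_one] at h
      rw [max_eq_right hA, max_eq_left (h ▸ (mul_le_of_le_one_left' hA).trans hB2), h, mul_one,
        mul_comm]

end

/-- Every point is twice a point: a tangent line through the negative of the point. -/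
theorem exists_half [IsAlgClosed k] [CharZero k] {a b : k} (h : b ^ 2 = a ^ 3 + a) :
    ∃ l c : k, 2 * c = l ^ 2 - a ∧ c ^ 2 = a ^ 2 + 1 + l ^ 2 * a + 2 * l * b ∧
      (l * (c - a) - b) ^ 2 = c ^ 3 + c ∧ l * (c - a) - b ≠ 0 := by
  obtain ⟨l, hl⟩ := IsAlgClosed.exists_root
    (X ^ 4 - C (6 * a) * X ^ 2 - C (8 * b) * X - C (3 * a ^ 2 + 4) : k[X]) (by
      have : (X ^ 4 - C (6 * a) * X ^ 2 - C (8 * b) * X - C (3 * a ^ 2 + 4) : k[X]).degree = 4 := by
        compute_degree!
      rw [this]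
      decide)
  simp only [IsRoot, eval_sub, eval_mul, eval_pow, eval_X, eval_C] at hl
  obtain ⟨c, hc⟩ : ∃ c : k, 2 * c = l ^ 2 - a := ⟨(l ^ 2 - a) / 2, by ring⟩
  have h1 : c ^ 2 = a ^ 2 + 1 + l ^ 2 * a + 2 * l * b := by
    linear_combination (1 / 4 : k) * hl + (1 / 4 : k) * (2 * c + l ^ 2 - a) * hc
  have h2 : (l * (c - a) - b) ^ 2 = c ^ 3 + c := by
    linear_combination h + (c - a) * h1 - (c - a) * c * hc
  refine ⟨l, c, hc, h1, h2, fun h0 => ?_⟩
  have h3 : 3 * c ^ 2 + 1 = 0 := by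
    linear_combination 2 * l * h0 - h1 + (2 * c - a) * hc
  rw [h0] at h2
  have : (2 : k) = 0 := by
    linear_combination (3 * c ^ 2 + 2) * h3 + 9 * c * h2
  exact two_ne_zero this

theorem exists_div [IsAlgClosed k] [CharZero k] (hx : Transcendental k x) (hy : y ^ 2 = x ^ 3 + x)
    (n : ℕ) : ∃ (a b : k) (g : F), b ^ 2 = a ^ 3 + a ∧ g ≠ 0 ∧
      ∀ v : Valuation F (WithZero (Multiplicative ℤ)), (∀ c : k, v (algebraMap k F c) ≤ 1) →
        (v x ≤ 1 → v (x * g ^ 2) =
          max (v (x - algebraMap k F a)) (v (y - algebraMap k F b)) ^ 2 ^ (n + 1)) ∧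
        (1 < v x → v (x * g ^ 2) = v (y / x) ^ 2 ^ (n + 1)) := by
  induction n with
  | zero =>
    refine ⟨0, 0, 1, by simp, one_ne_zero, fun v _ => ⟨fun h => ?_, fun h => ?_⟩⟩
    · simp only [one_pow, mul_one, map_zero, sub_zero, zero_add, pow_one]
      have h1 := v_y_le hy h
      rcases h.eq_or_lt with h2 | h2
      · rw [h2, max_eq_left h1, one_pow]
      · have h3 : v y ^ 2 = v x := by
          rw [← map_pow, hy, show x ^ 3 + x = x * (1 + x ^ 2) by ring, map_mul,
            v.map_one_add_of_lt, mul_one]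
          rw [map_pow]
          exact pow_lt_one₀ zero_le h2 two_ne_zero
        rw [max_eq_right, h3]
        rw [← h3, sq]
        exact mul_le_of_le_one_left' h1
    · simp only [one_pow, mul_one, zero_add, pow_one, map_div₀, div_pow]
      rw [(v_inf hy h).1, eq_div_iff (pow_ne_zero _ (ne_zero_of_lt h)), pow_succ' _ 2]
  | succ n ih =>
    obtain ⟨a, b, g, hab, hg, H⟩ := ih
    obtain ⟨l, c, h1, h2, h3, h4⟩ := exists_half hab
    have hA := x_ne hx a
    have hL : y - (algebraMap k F l * (x - algebraMap k F a) - algebraMap k F b) ≠ 0 := by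
      have := y_ne hx hy (C l * (X - C a) - C b)
      rwa [map_sub, map_mul, map_sub, aeval_C, aeval_C, aeval_C, aeval_X] at this
    have e1 := congrArg (algebraMap k F) h1
    have e2 := congrArg (algebraMap k F) h2
    have e3 := congrArg (algebraMap k F) hab
    simp only [map_add, map_mul, map_pow, map_sub, map_ofNat, map_one] at e1 e2 e3
    refine ⟨c, l * (c - a) - b, g * ((y - (algebraMap k F l * (x - algebraMap k F a) -
      algebraMap k F b)) / (x - algebraMap k F a)) ^ 2 ^ n, h3,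
      mul_ne_zero hg (pow_ne_zero _ (div_ne_zero hL hA)), fun v hv => ?_⟩
    have hm := v_const hv h4
    have hv2 : v 2 = 1 := by simpa only [map_ofNat] using v_const hv (two_ne_zero' k)
    simp only [map_mul, map_sub] at hm
    have hva := hv a
    have hvb := hv b
    have hvc := hv c
    have hvl := hv l
    rw [map_sub (algebraMap k F), map_mul (algebraMap k F), map_sub (algebraMap k F)]
    obtain ⟨H1, H2⟩ := H v hv
    generalize algebraMap k F a = a at *
    generalize algebraMap k F b = b at *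
    generalize algebraMap k F c = c at *
    generalize algebraMap k F l = l at *
    have hA' := v.ne_zero_iff.2 hA
    rw [mul_pow, ← mul_assoc, map_mul, ← pow_mul, ← pow_succ, map_pow, map_div₀]
    refine ⟨fun h => ?_, fun h => ?_⟩
    · have hy1 := v_y_le hy h
      have a1 := v.map_sub_le h hva
      have c1 := v.map_sub_le h hvc
      have m1 : v (l * (x - a) - b) ≤ 1 := v.map_sub_le (mul_mem (s := v.integer) hvl a1) hvb
      have key := order_step (m := v (y + (l * (x - a) - b))) a1 c1 (v.map_sub_le hy1 m1) (by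
        rw [← map_mul, ← map_pow, ← map_mul]
        congr 1
        linear_combination hy - e3 - (x - a) * e2 + (x - a) * x * e1) (by
        intro hc
        by_contra hn
        rw [not_or] at hn
        have h5 := v.map_sub_lt (lt_of_le_of_ne (v.map_add_le hy1 m1) hn.2)
          (lt_of_le_of_ne (v.map_sub_le hy1 m1) hn.1)
        rw [show y + (l * (x - a) - b) - (y - (l * (x - a) - b)) =
          2 * (l * (c - a) - b + l * (x - c)) by ring, map_mul, hv2, one_mul,
          v.map_add_eq_of_lt_left, hm] at h5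
        · exact lt_irrefl _ h5
        · rw [hm, map_mul]
          exact (mul_le_of_le_one_left' hvl).trans_lt hc)
      rw [H1 h, ← mul_pow, pow_succ' 2 (n + 1), pow_mul]
      congr 1
      rw [show y - b = y + (l * (x - a) - b) + -l * (x - a) by ring,
        max_shift (by rwa [v.map_neg]),
        show y - (l * (c - a) - b) = y - (l * (x - a) - b) + l * (x - c) by ring, max_shift hvl,
        ← mul_div_assoc, mul_comm, key, mul_div_cancel_right₀ _ hA']
    · have h5 : v (x - a) = v x := v.map_sub_eq_of_lt_left (hva.trans_lt h)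
      have h6 : v (y - (l * (x - a) - b)) = v y := by
        refine v.map_sub_eq_of_lt_left (lt_of_le_of_lt (v.map_sub_le ?_ (hvb.trans h.le))
          (v_inf hy h).2)
        rw [map_mul, h5]
        exact mul_le_of_le_one_left' hvl
      rw [H2 h, h5, h6, ← map_div₀, ← pow_add, ← two_mul, ← pow_succ']

/-- A function h = x g ^ 2 in the coordinate ring whose divisor is divisible by 2 ^ (n + 1). -/
theorem exists_h [IsAlgClosed k] [CharZero k] (hx : Transcendental k x) (hy : y ^ 2 = x ^ 3 + x)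
    (hF : IntermediateField.adjoin k {x, y} = ⊤) (n : ℕ) :
    ∃ h g : F, h ∈ Algebra.adjoin k {x, y} ∧ g ≠ 0 ∧ h = x * g ^ 2 ∧
      ∀ v : Valuation F (WithZero (Multiplicative ℤ)), (∀ c : k, v (algebraMap k F c) ≤ 1) →
        ∃ β : F, β ≠ 0 ∧ v h = v β ^ 2 ^ (n + 1) := by
  obtain ⟨a, b, g, -, hg, H⟩ := exists_div hx hy n
  have hx0 : x ≠ 0 := by simpa using x_ne hx 0
  obtain ⟨p, hp, q, hq, hpq⟩ := (IntermediateField.mem_adjoin_iff_div (F := k) (S := {x, y})).1
    (hF ▸ IntermediateField.mem_top (x := x * g ^ 2))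
  have hq0 : q ≠ 0 := by
    rintro rfl
    exact mul_ne_zero hx0 (pow_ne_zero 2 hg) (by rw [hpq, div_zero])
  have e : x * (g * q ^ 2 ^ n) ^ 2 = x * g ^ 2 * q ^ 2 ^ (n + 1) := by ring
  refine ⟨_, g * q ^ 2 ^ n, ?_, mul_ne_zero hg (pow_ne_zero _ hq0), rfl, fun v hv => ?_⟩
  · obtain ⟨m, hm⟩ : ∃ m, 2 ^ (n + 1) = m + 1 := ⟨2 ^ (n + 1) - 1, by
      have := Nat.one_le_two_pow (n := n + 1); omega⟩
    rw [e, hpq, hm, pow_succ', ← mul_assoc, div_mul_cancel₀ _ hq0]
    exact mul_mem hp (pow_mem hq _)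
  · have : ∃ β : F, β ≠ 0 ∧ v (x * g ^ 2) = v β ^ 2 ^ (n + 1) := by
      rcases le_or_gt (v x) 1 with h | h
      · rw [(H v hv).1 h]
        rcases max_choice (v (x - algebraMap k F a)) (v (y - algebraMap k F b)) with h' | h'
        · exact ⟨_, x_ne hx a, by rw [h']⟩
        · exact ⟨_, by simpa using y_ne hx hy (C b), by rw [h']⟩
      · exact ⟨_, div_ne_zero (by simpa using y_ne hx hy 0) hx0, (H v hv).2 h⟩
    obtain ⟨β, hβ, h⟩ := this
    exact ⟨β * q, mul_ne_zero hβ hq0, by rw [e, map_mul, h, map_pow, map_mul, mul_pow]⟩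

end Pool.Agent.MP_dd9dc3_ag

end

-- part MP_dd9dc3_ag.Reg
section

/-!
The invariant vector field of the curve preserves the valuation rings.
-/

namespace Pool.Agent.MP_dd9dc3_ag

open Polynomial

variable {k K : Type*} [Field k] [Field K] [Algebra k K] {x y : K}
  {v : Valuation K (WithZero (Multiplicative ℤ))} {d : Derivation k K K}

theorem d_y (hx : Transcendental k x) (hy : y ^ 2 = x ^ 3 + x) (hd : d x = y) :
    2 * d y = 3 * x ^ 2 + 1 := by
  have hy0 : y ≠ 0 := by simpa using y_ne hx hy 0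
  have h := congrArg d hy
  rw [map_add, d.leibniz_pow, d.leibniz_pow, hd] at h
  simp only [smul_eq_mul, nsmul_eq_mul] at h
  apply mul_left_cancel₀ hy0
  norm_num at h
  linear_combination h

theorem adjoin_good [CharZero k] (hv : ∀ c : k, v (algebraMap k K c) ≤ 1)
    (hx : Transcendental k x) (hy : y ^ 2 = x ^ 3 + x) (hd : d x = y) (h : v x ≤ 1) {a : K}
    (ha : a ∈ Algebra.adjoin k {x, y}) : a ∈ good v d := by
  induction ha using Algebra.adjoin_induction with
  | mem a ha =>
    rcases ha with rfl | rfl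
    · exact ⟨h, by rw [hd]; exact v_y_le hy h⟩
    · refine ⟨v_y_le hy h, ?_⟩
      have hv2 : v 2 = 1 := by simpa only [map_ofNat] using v_const hv (two_ne_zero' k)
      have h1 := congrArg v (d_y hx hy hd)
      rw [map_mul, hv2, one_mul] at h1
      rw [h1]
      exact add_mem (s := v.integer) (mul_mem (s := v.integer) (ofNat_mem v.integer 3)
        (pow_mem (S := v.integer) h 2)) (one_mem v.integer)
  | algebraMap c => exact ⟨hv c, by simp⟩
  | add a b _ _ ih ih' => exact add_mem ih ih'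
  | mul a b _ _ ih ih' => exact mul_mem ih ih'

theorem decomp (a0 b0 : k) {a : K} (ha : a ∈ Algebra.adjoin k {x, y}) :
    ∃ (c : k) (p q : K), p ∈ Algebra.adjoin k {x, y} ∧ q ∈ Algebra.adjoin k {x, y} ∧
      a = algebraMap k K c + (x - algebraMap k K a0) * p + (y - algebraMap k K b0) * q := by
  induction ha using Algebra.adjoin_induction with
  | mem a ha =>
    rcases ha with rfl | rfl
    · exact ⟨a0, 1, 0, one_mem _, zero_mem _, by ring⟩
    · exact ⟨b0, 0, 1, zero_mem _, one_mem _, by ring⟩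
  | algebraMap c => exact ⟨c, 0, 0, zero_mem _, zero_mem _, by ring⟩
  | add a b _ _ ih ih' =>
    obtain ⟨c, p, q, hp, hq, rfl⟩ := ih
    obtain ⟨c', p', q', hp', hq', rfl⟩ := ih'
    exact ⟨c + c', p + p', q + q', add_mem hp hp', add_mem hq hq', by rw [map_add]; ring⟩
  | mul a b _ hb ih ih' =>
    obtain ⟨c, p, q, hp, hq, rfl⟩ := ih
    obtain ⟨c', p', q', hp', hq', h⟩ := ih'
    refine ⟨c * c', algebraMap k K c * p' + p * b, algebraMap k K c * q' + q * b,
      add_mem (mul_mem (Subalgebra.algebraMap_mem _ _) hp') (mul_mem hp hb),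
      add_mem (mul_mem (Subalgebra.algebraMap_mem _ _) hq') (mul_mem hq hb), ?_⟩
    rw [map_mul]
    linear_combination (algebraMap k K c) * h

theorem exists_unif [IsAlgClosed k] [CharZero k] (hv : ∀ c : k, v (algebraMap k K c) ≤ 1)
    (hx : Transcendental k x) (hy : y ^ 2 = x ^ 3 + x) (h : v x ≤ 1) {a : k}
    (ha : v (x - algebraMap k K a) < 1) :
    ∃ (b : k) (π e p q : K), π ∈ Algebra.adjoin k {x, y} ∧ e ∈ Algebra.adjoin k {x, y} ∧
      p ∈ Algebra.adjoin k {x, y} ∧ q ∈ Algebra.adjoin k {x, y} ∧ π ≠ 0 ∧ v π < 1 ∧ v e = 1 ∧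
      (x - algebraMap k K a) * e = π * p ∧ (y - algebraMap k K b) * e = π * q := by
  have mx : x ∈ Algebra.adjoin k {x, y} := Algebra.subset_adjoin (by simp)
  have my : y ∈ Algebra.adjoin k {x, y} := Algebra.subset_adjoin (by simp)
  have mc : ∀ c, algebraMap k K c ∈ Algebra.adjoin k {x, y} := Subalgebra.algebraMap_mem _
  have mg : x ^ 2 + x * algebraMap k K a + algebraMap k K a ^ 2 + 1 ∈ Algebra.adjoin k {x, y} :=
    add_mem (add_mem (add_mem (pow_mem mx _) (mul_mem mx (mc _))) (pow_mem (mc _) _)) (one_mem _)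
  have vg : v (x ^ 2 + x * algebraMap k K a + algebraMap k K a ^ 2 + 1) ≤ 1 :=
    add_mem (s := v.integer) (add_mem (s := v.integer) (add_mem (s := v.integer)
      (pow_mem (S := v.integer) h _) (mul_mem (s := v.integer) h (hv _)))
      (pow_mem (S := v.integer) (hv _) _)) (one_mem v.integer)
  obtain ⟨b, hb, hb'⟩ : ∃ b : k, b ^ 2 = a ^ 3 + a ∧ v (y - algebraMap k K b) < 1 := by
    obtain ⟨b, hb⟩ := IsAlgClosed.exists_pow_nat_eq (a ^ 3 + a) two_pos
    have e := congrArg (algebraMap k K) hb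
    simp only [map_add, map_pow] at e
    by_contra hn
    push Not at hn
    have h1 := one_le_mul (hn b hb) (hn (-b) (by rw [neg_sq, hb]))
    rw [← map_mul, map_neg, show (y - algebraMap k K b) * (y - -algebraMap k K b) =
      (x ^ 2 + x * algebraMap k K a + algebraMap k K a ^ 2 + 1) * (x - algebraMap k K a) by
        linear_combination hy - e, map_mul] at h1
    exact absurd ((mul_le_of_le_one_left' vg).trans_lt ha) (not_lt.2 h1)
  have e := congrArg (algebraMap k K) hb
  simp only [map_add, map_pow] at e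
  by_cases hb0 : b = 0
  · subst hb0
    have h3 : 3 * a ^ 2 + 1 ≠ 0 := by
      intro h3
      have : (2 : k) = 0 := by linear_combination (3 * a ^ 2 + 2) * h3 + 9 * a * hb
      exact two_ne_zero this
    have h4 := v_const hv h3
    simp only [map_add, map_mul, map_pow, map_ofNat, map_one] at h4
    refine ⟨0, y, _, y, _, my, mg, my, mg, by simpa using y_ne hx hy 0, by simpa using hb', ?_,
      ?_, by rw [map_zero, sub_zero]⟩
    · rw [show x ^ 2 + x * algebraMap k K a + algebraMap k K a ^ 2 + 1 =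
        3 * algebraMap k K a ^ 2 + 1 + (x + 2 * algebraMap k K a) * (x - algebraMap k K a) by ring,
        v.map_add_eq_of_lt_left, h4]
      rw [h4, map_mul]
      refine (mul_le_of_le_one_left' ?_).trans_lt ha
      exact add_mem (s := v.integer) h (mul_mem (s := v.integer) (ofNat_mem v.integer 2) (hv _))
    · rw [map_zero] at e
      linear_combination e - hy
  · have h4 := v_const hv (mul_ne_zero (two_ne_zero' k) hb0)
    simp only [map_mul (algebraMap k K), map_ofNat] at h4
    refine ⟨b, _, y + algebraMap k K b, _, _, sub_mem mx (mc a), add_mem my (mc b),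
      add_mem my (mc b), mg, x_ne hx a, ha, ?_, rfl, by linear_combination hy - e⟩
    rw [show y + algebraMap k K b = 2 * algebraMap k K b + (y - algebraMap k K b) by ring,
      v.map_add_eq_of_lt_left, h4]
    rwa [h4]

theorem exists_factor [IsAlgClosed k] [CharZero k] (hv : ∀ c : k, v (algebraMap k K c) ≤ 1)
    (hx : Transcendental k x) (hy : y ^ 2 = x ^ 3 + x) (hd : d x = y) (h : v x ≤ 1) :
    ∃ π : K, π ∈ good v d ∧ π ≠ 0 ∧ ∀ a ∈ Algebra.adjoin k {x, y}, a ≠ 0 →
      ∃ (n : ℕ) (u : K), u ∈ good v d ∧ v u = 1 ∧ a = π ^ n * u := by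
  have G : ∀ {a}, a ∈ Algebra.adjoin k {x, y} → a ∈ good v d := adjoin_good hv hx hy hd h
  by_cases hc : ∃ a : k, v (x - algebraMap k K a) < 1
  · obtain ⟨a0, ha0⟩ := hc
    obtain ⟨b0, π, e, p, q, hπ, he, hp, hq, hπ0, hπ1, he1, h1, h2⟩ := exists_unif hv hx hy h ha0
    have he0 : e ≠ 0 := v.ne_zero_iff.1 (by rw [he1]; exact one_ne_zero)
    refine ⟨π, G hπ, hπ0, fun a ha ha' => ?_⟩
    induction hn : (ord v a).toNat using Nat.strong_induction_on generalizing a with
    | _ n ih =>
      obtain ⟨c, p', q', hp', hq', e1⟩ := decomp a0 b0 ha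
      have m : p * p' + q * q' ∈ Algebra.adjoin k {x, y} :=
        add_mem (mul_mem hp hp') (mul_mem hq hq')
      have e2 : a * e = algebraMap k K c * e + π * (p * p' + q * q') := by
        rw [e1]
        linear_combination p' * h1 + q' * h2
      by_cases hc : c = 0
      · rw [hc, map_zero, zero_mul, zero_add] at e2
        have m0 : p * p' + q * q' ≠ 0 := by
          intro h0
          rw [h0, mul_zero] at e2
          exact mul_ne_zero ha' he0 e2
        have o1 := congrArg (ord v) e2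
        rw [ord_mul ha' he0, ord_mul hπ0 m0, ord_of_one he1] at o1
        have o2 := ord_pos hπ0 hπ1
        have o3 := (ord_le_iff one_ne_zero m0).2 (by rw [map_one]; exact (G m).1)
        rw [ord_of_one (map_one v)] at o3
        obtain ⟨j, u, hu, hu1, e3⟩ := ih _ (by omega) _ m m0 rfl
        refine ⟨j + 1, u / e, good_div hu (G he) he1, by rw [map_div₀, hu1, he1, div_one], ?_⟩
        rw [← mul_div_assoc, eq_div_iff he0, e2, e3]
        ring
      · refine ⟨0, a, G ha, ?_, by simp⟩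
        have o1 := congrArg v e2
        have o2 : v (algebraMap k K c * e) = 1 := by rw [map_mul, v_const hv hc, he1, one_mul]
        rw [map_mul, he1, mul_one, v.map_add_eq_of_lt_left, o2] at o1
        · exact o1
        · rw [o2, map_mul]
          exact (mul_le_of_le_one_right' (G m).1).trans_lt hπ1
  · push Not at hc
    have hp : ∀ p : k[X], p ≠ 0 → v (aeval x p) = 1 := by
      intro p
      induction hn : p.natDegree using Nat.strong_induction_on generalizing p with
      | _ n ih =>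
        intro hp
        by_cases h0 : p.degree = 0
        · rw [eq_C_of_degree_eq_zero h0] at hp ⊢
          rw [aeval_C]
          exact v_const hv (by simpa using hp)
        · obtain ⟨r, hr⟩ := IsAlgClosed.exists_root p h0
          obtain ⟨q, rfl⟩ := dvd_iff_isRoot.2 hr
          have hq : q ≠ 0 := right_ne_zero_of_mul hp
          rw [natDegree_mul (X_sub_C_ne_zero r) hq, natDegree_X_sub_C] at hn
          rw [map_mul, map_mul, ih _ (by omega) q rfl hq, mul_one, map_sub, aeval_X, aeval_C]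
          exact le_antisymm (v.map_sub_le h (hv r)) (hc r)
    refine ⟨1, one_mem _, one_ne_zero, fun a ha ha' => ⟨0, a, G ha, ?_, by simp⟩⟩
    obtain ⟨p, q, rfl⟩ := exists_pq hy ha
    have h1 := hp _ (norm_ne (p := p) (q := q) (not_and_or.1 fun h => ha' (by simp [h.1, h.2])))
    rw [← norm_eq hy, map_mul] at h1
    refine le_antisymm (G ha).1 ?_
    rw [← h1]
    exact mul_le_of_le_one_right' (G (pq_mem p (-q))).1

theorem good_of_div [IsAlgClosed k] [CharZero k] (hv : ∀ c : k, v (algebraMap k K c) ≤ 1)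
    (hx : Transcendental k x) (hy : y ^ 2 = x ^ 3 + x) (hd : d x = y) (h : v x ≤ 1) {f : K}
    (hf : f ∈ IntermediateField.adjoin k {x, y}) (h1 : v f ≤ 1) : f ∈ good v d := by
  obtain ⟨a, ha, b, hb, rfl⟩ := IntermediateField.mem_adjoin_iff_div.1 hf
  by_cases ha0 : a = 0
  · rw [ha0, zero_div]
    exact zero_mem _
  by_cases hb0 : b = 0
  · rw [hb0, div_zero]
    exact zero_mem _
  obtain ⟨π, hπ, hπ0, H⟩ := exists_factor hv hx hy hd h
  obtain ⟨n, u, hu, hu1, rfl⟩ := H a ha ha0
  obtain ⟨m, r, hr, hr1, rfl⟩ := H b hb hb0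
  rcases hπ.1.eq_or_lt with h2 | h2
  · exact good_div (mul_mem (pow_mem hπ _) hu) (mul_mem (pow_mem hπ _) hr)
      (by rw [map_mul, map_pow, h2, hr1, one_pow, one_mul])
  · have hnm : m ≤ n := by
      have o := (ord_le_iff one_ne_zero (div_ne_zero ha0 hb0)).2 (by rwa [map_one])
      rw [ord_of_one (map_one v), ord_div ha0 hb0,
        ord_mul (pow_ne_zero _ hπ0) (right_ne_zero_of_mul ha0),
        ord_mul (pow_ne_zero _ hπ0) (right_ne_zero_of_mul hb0), ord_of_one hu1, ord_of_one hr1,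
        ord_pow, ord_pow] at o
      have o2 := ord_pos hπ0 h2
      by_contra hn
      have : (n : ℤ) < m := by exact_mod_cast not_le.1 hn
      nlinarith
    obtain ⟨j, rfl⟩ := Nat.exists_eq_add_of_le hnm
    rw [pow_add, mul_assoc, mul_div_mul_left _ _ (pow_ne_zero _ hπ0)]
    exact good_div (mul_mem (pow_mem hπ _) hu) hr hr1

end Pool.Agent.MP_dd9dc3_ag

end

-- part MP_dd9dc3_ag.Poly
section

/-!
Transcendence bases, polynomial subrings over a valuation ring, centres and residues.
-/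

namespace Pool.Agent.MP_dd9dc3_ag

open WithZero

theorem tb_of {R K : Type*} [Field R] [Field K] [Algebra R K] {n : ℕ} (z : Fin n → K) {G : Set K}
    (hG : IntermediateField.adjoin R G = ⊤) (htr : (n : Cardinal) ≤ Algebra.trdeg R K)
    (h : ∀ E : IntermediateField R K, (∀ i, z i ∈ E) →
      (∀ (f : K) (m : ℕ), m ≠ 0 → f ^ m ∈ E → f ∈ E) → G ⊆ E) : IsTranscendenceBasis R z := by
  let E0 := IntermediateField.adjoin R (Set.range z)
  have h1 := h ((algebraicClosure E0 K).restrictScalars R)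
    (fun i => (algebraicClosure E0 K).algebraMap_mem
      ⟨z i, IntermediateField.subset_adjoin _ _ ⟨i, rfl⟩⟩)
    (fun f m hm hf => mem_algebraicClosure_iff'.2
      (IsIntegral.of_pow (Nat.pos_of_ne_zero hm) (mem_algebraicClosure_iff'.1 hf)))
  have h2 : Algebra.IsAlgebraic E0 K := ⟨fun f => mem_algebraicClosure_iff.1
    (IntermediateField.adjoin_le_iff.2 h1 (hG ▸ IntermediateField.mem_top))⟩
  have h3 := (IntermediateField.isAlgebraic_adjoin_iff_top (S := K)).1 h2
  exact Algebra.IsAlgebraic.isTranscendenceBasis_of_lift_le_trdeg_of_finite R z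
    (by simpa using htr)

theorem integral_mono {k K : Type*} [Field k] [Field K] [Algebra k K] {S : Subalgebra k K}
    {B : Subring K} (h : ∀ f ∈ S, f ∈ B) {a : K} (ha : IsIntegral S a) : IsIntegral B a := by
  let _ : Algebra S B := (S.val.toRingHom.codRestrict B fun f => h f f.2).toAlgebra
  have : IsScalarTower S B K := IsScalarTower.of_algebraMap_eq fun _ => rfl
  exact ha.tower_top

section

variable {F K : Type*} [Field F] [Field K] [Algebra F K]

/-- The ring O[T0, T1]. -/
noncomputable def pr (O : Subring F) (T : Fin 2 → K) : Subring K :=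
  (MvPolynomial.eval₂Hom ((algebraMap F K).comp O.subtype) T).range

theorem gen_mem_pr (O : Subring F) (T : Fin 2 → K) (i : Fin 2) : T i ∈ pr O T :=
  ⟨MvPolynomial.X i, MvPolynomial.eval₂Hom_X' _ _ _⟩

theorem const_mem_pr {O : Subring F} (T : Fin 2 → K) {c : F} (hc : c ∈ O) :
    algebraMap F K c ∈ pr O T :=
  ⟨MvPolynomial.C ⟨c, hc⟩, MvPolynomial.eval₂Hom_C _ _ _⟩

theorem pr_le {O : Subring F} {T : Fin 2 → K} {B : Subring K} (h : ∀ c ∈ O, algebraMap F K c ∈ B)
    (h' : ∀ i, T i ∈ B) : pr O T ≤ B := by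
  rintro _ ⟨Q, rfl⟩
  induction Q using MvPolynomial.induction_on with
  | C c => rw [MvPolynomial.eval₂Hom_C]; exact h c c.2
  | add p q hp hq => rw [map_add]; exact add_mem hp hq
  | mul_X p i hp => rw [map_mul, MvPolynomial.eval₂Hom_X']; exact mul_mem hp (h' i)

theorem isFractionRing_aeval {T : Fin 2 → K} (hT : AlgebraicIndependent F T)
    (hK : IntermediateField.adjoin F (Set.range T) = ⊤) :
    letI := (MvPolynomial.aeval T : MvPolynomial (Fin 2) F →ₐ[F] K).toRingHom.toAlgebra
    IsFractionRing (MvPolynomial (Fin 2) F) K := by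
  let _ := (MvPolynomial.aeval T : MvPolynomial (Fin 2) F →ₐ[F] K).toRingHom.toAlgebra
  have : FaithfulSMul (MvPolynomial (Fin 2) F) K := (faithfulSMul_iff_algebraMap_injective _ _).2 hT
  exact IsFractionRing.of_field _ _ fun f =>
    (IntermediateField.mem_adjoin_range_iff F T f).1 (hK ▸ IntermediateField.mem_top)

attribute [local instance] MvPolynomial.algebraMvPolynomial in
theorem mem_pr_of_integral {T : Fin 2 → K} (hT : AlgebraicIndependent F T)
    (hK : IntermediateField.adjoin F (Set.range T) = ⊤) {O : Subring F}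
    (hO : ∀ c : F, IsIntegral O c → c ∈ O) {a : K} (ha : IsIntegral (pr O T) a) : a ∈ pr O T := by
  let _ := (MvPolynomial.aeval T : MvPolynomial (Fin 2) F →ₐ[F] K).toRingHom.toAlgebra
  have := isFractionRing_aeval hT hK
  have : IsIntegrallyClosed (MvPolynomial (Fin 2) F) :=
    UniqueFactorizationMonoid.instIsIntegrallyClosed
  let φ : MvPolynomial (Fin 2) O →+* K :=
    MvPolynomial.eval₂Hom ((algebraMap F K).comp O.subtype) T
  let _ : Algebra (MvPolynomial (Fin 2) O) K := φ.toAlgebra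
  let _ : Algebra (MvPolynomial (Fin 2) O) (pr O T) := φ.rangeRestrict.toAlgebra
  have : IsScalarTower (MvPolynomial (Fin 2) O) (pr O T) K :=
    IsScalarTower.of_algebraMap_eq fun _ => rfl
  have hφ : ∀ Q, φ Q = MvPolynomial.aeval T (MvPolynomial.map (algebraMap O F) Q) := fun Q => by
    rw [MvPolynomial.aeval_def, MvPolynomial.eval₂_map]
    rfl
  have : IsScalarTower (MvPolynomial (Fin 2) O) (MvPolynomial (Fin 2) F) K :=
    IsScalarTower.of_algebraMap_eq hφ
  have : Algebra.IsIntegral (MvPolynomial (Fin 2) O) (pr O T) :=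
    Algebra.isIntegral_of_surjective φ.rangeRestrict_surjective
  have h1 : IsIntegral (MvPolynomial (Fin 2) O) a := isIntegral_trans a ha
  obtain ⟨Q, rfl⟩ := IsIntegrallyClosed.isIntegral_iff.1
    (h1.tower_top (A := MvPolynomial (Fin 2) F))
  have h2 := MvPolynomial.isIntegral_iff_isIntegral_coeff.1
    ((isIntegral_algebraMap_iff (IsFractionRing.injective (MvPolynomial (Fin 2) F) K)).1 h1)
  obtain ⟨Q', rfl⟩ : Q ∈ Set.range (MvPolynomial.map (algebraMap O F)) := by
    refine MvPolynomial.mem_range_map_iff_coeffs_subset.2 fun c hc => ?_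
    obtain ⟨m, -, rfl⟩ := MvPolynomial.mem_coeffs_iff.1 hc
    exact ⟨⟨_, hO _ (h2 m)⟩, rfl⟩
  exact ⟨Q', hφ Q'⟩

/-- The order of vanishing along T0 = 0. -/
theorem exists_v0 {T : Fin 2 → K} (hT : AlgebraicIndependent F T)
    (hK : IntermediateField.adjoin F (Set.range T) = ⊤) :
    ∃ v : Valuation K (WithZero (Multiplicative ℤ)), Function.Surjective v ∧ v (T 0) = exp (-1) ∧
      v (T 1) = 1 ∧ (∀ c : F, v (algebraMap F K c) ≤ 1) ∧
      ∀ f, v f ≤ 1 → ∃ a ∈ pr (⊤ : Subring F) T, ∃ b ∈ pr (⊤ : Subring F) T, v b = 1 ∧ f * b = a := by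
  let _ := (MvPolynomial.aeval T : MvPolynomial (Fin 2) F →ₐ[F] K).toRingHom.toAlgebra
  have := isFractionRing_aeval hT hK
  have hp : (Ideal.span {(MvPolynomial.X 0 : MvPolynomial (Fin 2) F)}).IsPrime :=
    (Ideal.span_singleton_prime (MvPolynomial.X_ne_zero _)).2 MvPolynomial.X_prime
  obtain ⟨-, v, h1, h2, h3⟩ := exists_val (K := K)
    (Ideal.span {(MvPolynomial.X 0 : MvPolynomial (Fin 2) F)}) (Ideal.mem_span_singleton_self _)
    (MvPolynomial.X_ne_zero _) (fun b hb => by
      obtain ⟨c, rfl⟩ := Ideal.mem_span_singleton'.1 hb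
      exact ⟨1, c, (Ideal.ne_top_iff_one _).1 hp.ne_top, one_mul _⟩)
  have e : ∀ Q : MvPolynomial (Fin 2) F, algebraMap _ K Q = MvPolynomial.aeval T Q := fun _ => rfl
  have h4 : ∀ Q : MvPolynomial (Fin 2) F, v (algebraMap _ K Q) ≤ 1 := fun Q =>
    (h3 _).2 ⟨Q, 1, (Ideal.ne_top_iff_one _).1 hp.ne_top, by rw [map_one, mul_one]⟩
  have h5 : ∀ Q : MvPolynomial (Fin 2) F, Q ∉ Ideal.span {(MvPolynomial.X 0 : MvPolynomial (Fin 2) F)}
      → v (algebraMap _ K Q) = 1 := by
    intro Q hQ
    have hQ0 : algebraMap _ K Q ≠ 0 := by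
      rw [Ne, IsFractionRing.to_map_eq_zero_iff]
      rintro rfl
      exact hQ (zero_mem _)
    refine le_antisymm (h4 Q) ?_
    have := (h3 (algebraMap _ K Q)⁻¹).2 ⟨1, Q, hQ, by rw [inv_mul_cancel₀ hQ0, map_one]⟩
    rwa [v.val_le_one_iff (inv_ne_zero hQ0), inv_inv] at this
  have h6 : ∀ Q : MvPolynomial (Fin 2) F, algebraMap _ K Q ∈ pr (⊤ : Subring F) T := by
    intro Q
    rw [e]
    induction Q using MvPolynomial.induction_on with
    | C c => rw [MvPolynomial.aeval_C]; exact const_mem_pr T trivial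
    | add p q hp hq => rw [map_add]; exact add_mem hp hq
    | mul_X p i hp => rw [map_mul, MvPolynomial.aeval_X]; exact mul_mem hp (gen_mem_pr _ T i)
  refine ⟨v, h1, by rwa [e, MvPolynomial.aeval_X] at h2, ?_, fun c => ?_, fun f hf => ?_⟩
  · have := h5 (MvPolynomial.X 1) (by
      rw [Ideal.mem_span_singleton, MvPolynomial.X_dvd_X]
      decide)
    rwa [e, MvPolynomial.aeval_X] at this
  · have := h4 (MvPolynomial.C c)
    rwa [e, MvPolynomial.aeval_C] at this
  · obtain ⟨a, b, hb, h⟩ := (h3 f).1 hf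
    exact ⟨_, h6 a, _, h6 b, h5 b hb, h⟩

end

variable {k K : Type*} [Field k] [Field K] [Algebra k K]
  {v : Valuation K (WithZero (Multiplicative ℤ))}

theorem clos_le {z : Fin 3 → K} (hv : ∀ c : k, v (algebraMap k K c) ≤ 1) (hz : ∀ i, v (z i) ≤ 1)
    {f : K} (hf : f ∈ clos k z) : v f ≤ 1 := by
  refine (Valuation.integer.integers v).mem_of_integral (integral_mono (fun g hg => ?_) hf)
  induction hg using Algebra.adjoin_induction with
  | mem a ha =>
    obtain ⟨i, rfl⟩ := ha
    exact hz i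
  | algebraMap c => exact hv c
  | add a b _ _ ih ih' => exact add_mem ih ih'
  | mul a b _ _ ih ih' => exact mul_mem ih ih'

/-- The centre of a valuation. -/
def centre (A : Subalgebra k K) (v : Valuation K (WithZero (Multiplicative ℤ)))
    (h : ∀ f ∈ A, v f ≤ 1) : Ideal A where
  carrier := {f | v f < 1}
  add_mem' := fun ha hb => v.map_add_lt ha hb
  zero_mem' := by simp
  smul_mem' := fun c f hf => by
    change v (c * f) < 1
    rw [map_mul]
    exact (mul_le_of_le_one_left' (h c c.2)).trans_lt hf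

theorem mem_centre {A : Subalgebra k K} {h : ∀ f ∈ A, v f ≤ 1} {f : A} :
    f ∈ centre A v h ↔ v f < 1 := Iff.rfl

theorem centre_prime {A : Subalgebra k K} (h : ∀ f ∈ A, v f ≤ 1) : (centre A v h).IsPrime := by
  refine ⟨(Ideal.ne_top_iff_one _).2 (by simp [mem_centre]), fun {a b} hab => ?_⟩
  by_contra hn
  simp only [mem_centre, not_or, not_lt] at hn hab
  exact absurd (one_le_mul hn.1 hn.2) (by rw [← map_mul]; exact not_le.2 hab)

/-- c is the residue of a. -/
theorem cg_mul {a b c d : K} (hb : v b ≤ 1) (hc : v c ≤ 1) (h1 : v (a - c) < 1)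
    (h2 : v (b - d) < 1) : v (a * b - c * d) < 1 := by
  rw [show a * b - c * d = b * (a - c) + c * (b - d) by ring]
  refine v.map_add_lt ?_ ?_
  · rw [map_mul]
    exact (mul_le_of_le_one_left' hb).trans_lt h1
  · rw [map_mul]
    exact (mul_le_of_le_one_left' hc).trans_lt h2

theorem cg_le {a c : K} (hc : v c ≤ 1) (h : v (a - c) < 1) : v a ≤ 1 := by
  have := v.map_add_le h.le hc
  rwa [sub_add_cancel] at this

theorem cg_pow {a c : K} (hc : v c ≤ 1) (h : v (a - c) < 1) (n : ℕ) : v (a ^ n - c ^ n) < 1 := by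
  induction n with
  | zero => simp
  | succ n ih =>
    rw [pow_succ, pow_succ]
    exact cg_mul (cg_le hc h) (by rw [map_pow]; exact pow_le_one' hc n) ih h

/-- The elements whose residue lies in the image of j. -/
def res {R : Type*} [CommRing R] (j : R →+* K) (v : Valuation K (WithZero (Multiplicative ℤ)))
    (hj : ∀ c, v (j c) ≤ 1) : Subring K where
  carrier := {f | ∃ c, v (f - j c) < 1}
  mul_mem' := by
    rintro a b ⟨c, hc⟩ ⟨d, hd⟩
    exact ⟨c * d, by rw [map_mul j]; exact cg_mul (cg_le (hj d) hd) (hj c) hc hd⟩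
  one_mem' := ⟨1, by simp⟩
  add_mem' := by
    rintro a b ⟨c, hc⟩ ⟨d, hd⟩
    refine ⟨c + d, ?_⟩
    rw [map_add j, add_sub_add_comm]
    exact v.map_add_lt hc hd
  zero_mem' := ⟨0, by simp⟩
  neg_mem' := by
    rintro a ⟨c, hc⟩
    refine ⟨-c, ?_⟩
    rwa [map_neg j, ← neg_sub', v.map_neg]

open Polynomial in
theorem res_of_integral [IsAlgClosed k] (hv : ∀ c : k, v (algebraMap k K c) ≤ 1) {a : K}
    (ha : IsIntegral (res (algebraMap k K) v hv) a) : a ∈ res (algebraMap k K) v hv := by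
  have ha1 : v a ≤ 1 := by
    let _ : Algebra (res (algebraMap k K) v hv) v.integer :=
      (Subring.inclusion (show res (algebraMap k K) v hv ≤ v.integer from
        fun f ⟨c, hc⟩ => cg_le (hv c) hc)).toAlgebra
    have : IsScalarTower (res (algebraMap k K) v hv) v.integer K :=
      IsScalarTower.of_algebraMap_eq fun _ => rfl
    exact (Valuation.integer.integers v).mem_of_integral ha.tower_top
  by_contra hn
  have hc : ∀ r : k, 1 ≤ v (a - algebraMap k K r) := fun r => not_lt.1 fun h => hn ⟨r, h⟩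
  have hp : ∀ p : k[X], p ≠ 0 → v (aeval a p) = 1 := by
    intro p
    induction hn : p.natDegree using Nat.strong_induction_on generalizing p with
    | _ n ih =>
      intro hp
      by_cases h0 : p.degree = 0
      · rw [eq_C_of_degree_eq_zero h0] at hp ⊢
        rw [aeval_C]
        exact v_const hv (by simpa using hp)
      · obtain ⟨r, hr⟩ := IsAlgClosed.exists_root p h0
        obtain ⟨q, rfl⟩ := dvd_iff_isRoot.2 hr
        have hq : q ≠ 0 := right_ne_zero_of_mul hp
        rw [natDegree_mul (X_sub_C_ne_zero r) hq, natDegree_X_sub_C] at hn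
        rw [map_mul, map_mul, ih _ (by omega) q rfl hq, mul_one, map_sub, aeval_X, aeval_C]
        exact le_antisymm (v.map_sub_le ha1 (hv r)) (hc r)
  obtain ⟨p, hp1, hp2⟩ := ha
  choose ψ hψ using fun f : res (algebraMap k K) v hv => f.2
  have h1 := hp (∑ i ∈ Finset.range (p.natDegree + 1), monomial i (ψ (p.coeff i))) (by
    intro h
    have h2 := congrArg (coeff · p.natDegree) h
    simp only [finsetSum_coeff, coeff_monomial, Finset.sum_ite_eq', Finset.mem_range,
      Nat.lt_succ_self, if_true, coeff_zero, hp1.coeff_natDegree] at h2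
    simpa [h2] using hψ 1)
  rw [← aeval_def, aeval_eq_sum_range] at hp2
  rw [map_sum, ← sub_zero (Finset.sum _ _), ← hp2, ← Finset.sum_sub_distrib] at h1
  refine absurd h1 (v.map_sum_lt one_ne_zero fun i _ => ?_).ne
  rw [aeval_monomial, Subring.smul_def, smul_eq_mul, ← sub_mul, map_mul, v.map_sub_swap, map_pow]
  exact (mul_le_of_le_one_right' (pow_le_one' ha1 i)).trans_lt (hψ _)

end Pool.Agent.MP_dd9dc3_ag

end

-- part MP_dd9dc3_ag.Setup
section

/-!
The field K = F(t, s) over the function field F of the curve; charts of the curve.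
-/

namespace Pool.Agent.MP_dd9dc3_ag

universe u

theorem chart {k F : Type*} [Field k] [Field F] [Algebra k F] {x y : F} (hx : Transcendental k x)
    (hy : y ^ 2 = x ^ 3 + x) (hF : IntermediateField.adjoin k {x, y} = ⊤)
    (v : Valuation F (WithZero (Multiplicative ℤ))) :
    ∃ a b α : F, Transcendental k a ∧ b ^ 2 = a ^ 3 + a ∧ IntermediateField.adjoin k {a, b} = ⊤ ∧
      v a ≤ 1 ∧ (a = x ∧ b = y ∨ a = x⁻¹ ∧ b = -y / x ^ 2) ∧ α ≠ 0 ∧ v α⁻¹ ≤ 1 ∧
      v (x / α ^ 2) ≤ 1 ∧ (v α ≤ 1 ∨ v (α ^ 2 / x) ≤ 1) := by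
  have hx0 : x ≠ 0 := by simpa using x_ne hx 0
  have hy0 : y ≠ 0 := by simpa using y_ne hx hy 0
  rcases le_or_gt (v x) 1 with h | h
  · exact ⟨x, y, 1, hx, hy, hF, h, .inl ⟨rfl, rfl⟩, one_ne_zero, by simp, by simpa using h,
      .inl (by simp)⟩
  · obtain ⟨h1, h2⟩ := v_inf hy h
    have hvx := v.ne_zero_iff.2 hx0
    have hvy := v.ne_zero_iff.2 hy0
    have h3 : v ((y / x) ^ 2 / x) = 1 := by
      rw [show (y / x) ^ 2 / x = y ^ 2 / x ^ 3 by field_simp, map_div₀, map_pow, map_pow, h1,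
        div_self (pow_ne_zero _ hvx)]
    refine ⟨x⁻¹, -y / x ^ 2, y / x, fun h' => hx (by simpa using h'.inv), ?_, ?_,
      ((v.one_lt_val_iff hx0).1 h).le, .inr ⟨rfl, rfl⟩, div_ne_zero hy0 hx0, ?_, ?_, .inr h3.le⟩
    · field_simp
      linear_combination hy
    · rw [eq_top_iff, ← hF, IntermediateField.adjoin_le_iff]
      have m1 : x⁻¹ ∈ IntermediateField.adjoin k {x⁻¹, -y / x ^ 2} :=
        IntermediateField.subset_adjoin _ _ (by simp)
      have m2 : -y / x ^ 2 ∈ IntermediateField.adjoin k {x⁻¹, -y / x ^ 2} :=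
        IntermediateField.subset_adjoin _ _ (by simp)
      have m3 := neg_mem (div_mem m2 (pow_mem m1 2))
      rw [show -(-y / x ^ 2 / x⁻¹ ^ 2) = y by field_simp] at m3
      rintro _ (rfl | rfl)
      · simpa using inv_mem m1
      · exact m3
    · rw [inv_div, map_div₀]
      exact div_le_one_of_le₀ h2.le zero_le
    · rw [← inv_div, map_inv₀, h3, inv_one]

variable {k : Type*} {F K : Type u} [Field k] [Field F] [Field K] [Algebra k F] [Algebra F K]
  [Algebra k K] [IsScalarTower k F K] {x y : F} {t s : K}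

theorem mem_adjoin_map (hF : IntermediateField.adjoin k {x, y} = ⊤) {E : IntermediateField k K}
    (h1 : algebraMap F K x ∈ E) (h2 : algebraMap F K y ∈ E) (c : F) : algebraMap F K c ∈ E := by
  have : IntermediateField.adjoin k {x, y} ≤ E.comap (IsScalarTower.toAlgHom k F K) := by
    rw [IntermediateField.adjoin_le_iff]
    rintro _ (rfl | rfl)
    · exact h1
    · exact h2
  exact this (hF ▸ IntermediateField.mem_top)

theorem gen_top (hF : IntermediateField.adjoin k {x, y} = ⊤)
    (hK : IntermediateField.adjoin F (Set.range ![t, s]) = ⊤) :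
    IntermediateField.adjoin k {algebraMap F K x, algebraMap F K y, t, s} = ⊤ := by
  let E := IntermediateField.adjoin k {algebraMap F K x, algebraMap F K y, t, s}
  have h := mem_adjoin_map hF (E := E) (IntermediateField.subset_adjoin _ _ (by simp))
    (IntermediateField.subset_adjoin _ _ (by simp))
  have : IntermediateField.adjoin F (Set.range ![t, s]) ≤ E.toSubfield.toIntermediateField h := by
    rw [IntermediateField.adjoin_le_iff]
    rintro _ ⟨i, rfl⟩
    fin_cases i
    · exact IntermediateField.subset_adjoin k _ (by simp)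
    · exact IntermediateField.subset_adjoin k _ (by simp)
  rw [eq_top_iff]
  exact fun f _ => this (hK ▸ IntermediateField.mem_top)

theorem trdeg_two (hts : AlgebraicIndependent F ![t, s]) :
    ((2 : ℕ) : Cardinal) ≤ Algebra.trdeg F K := by
  simpa using hts.lift_cardinalMk_le_trdeg

theorem trdeg_three (hx : Transcendental k x) (hts : AlgebraicIndependent F ![t, s]) :
    ((3 : ℕ) : Cardinal) ≤ Algebra.trdeg k K := by
  have : Algebra.Transcendental k F := ⟨x, hx⟩
  refine le_trans ?_ (trdeg_add_le (R := k) (S := F) (A := K))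
  refine le_trans ?_ (add_le_add (Cardinal.one_le_iff_pos.2 (trdeg_pos k F)) (trdeg_two hts))
  norm_num

theorem essFin (hF : IntermediateField.adjoin k {x, y} = ⊤)
    (hK : IntermediateField.adjoin F (Set.range ![t, s]) = ⊤) : Algebra.EssFiniteType k K := by
  classical
  refine IntermediateField.fg_top_iff.1 ⟨{algebraMap F K x, algebraMap F K y, t, s}, ?_⟩
  simpa using gen_top hF hK

theorem pair_top (hts : AlgebraicIndependent F ![t, s])
    (hK : IntermediateField.adjoin F (Set.range ![t, s]) = ⊤) {a b : K}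
    (h : ∀ E : IntermediateField F K, a ∈ E → b ∈ E → t ∈ E ∧ s ∈ E) :
    AlgebraicIndependent F ![a, b] ∧ IntermediateField.adjoin F (Set.range ![a, b]) = ⊤ := by
  have key : ∀ E : IntermediateField F K, (∀ i, ![a, b] i ∈ E) → Set.range ![t, s] ⊆ E := by
    rintro E hE _ ⟨i, rfl⟩
    fin_cases i
    · exact (h E (hE 0) (hE 1)).1
    · exact (h E (hE 0) (hE 1)).2
  refine ⟨(tb_of _ hK (trdeg_two hts) fun E hE _ => key E hE).1, ?_⟩
  rw [eq_top_iff, ← hK, IntermediateField.adjoin_le_iff]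
  exact key _ fun i => IntermediateField.subset_adjoin _ _ ⟨i, rfl⟩

theorem map_hy (hy : y ^ 2 = x ^ 3 + x) :
    algebraMap F K y ^ 2 = algebraMap F K x ^ 3 + algebraMap F K x := by
  rw [← map_pow, hy, map_add, map_pow]

theorem map_hx (hx : Transcendental k x) : Transcendental k (algebraMap F K x) :=
  (transcendental_algebraMap_iff (algebraMap F K).injective).2 hx

theorem triple_tb (hx : Transcendental k x) (hy : y ^ 2 = x ^ 3 + x)
    (hF : IntermediateField.adjoin k {x, y} = ⊤) (hts : AlgebraicIndependent F ![t, s])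
    (hK : IntermediateField.adjoin F (Set.range ![t, s]) = ⊤) {a b c : K}
    (h : ∀ E : IntermediateField k K, a ∈ E → b ∈ E → c ∈ E → algebraMap F K x ∈ E ∧ t ∈ E ∧
      ((∀ f, algebraMap F K f ∈ E) → ∃ m : ℕ, m ≠ 0 ∧ s ^ m ∈ E)) :
    IsTranscendenceBasis k ![a, b, c] := by
  refine tb_of _ (gen_top hF hK) (trdeg_three hx hts) fun E hE hr => ?_
  obtain ⟨h1, h2, h3⟩ := h E (hE 0) (hE 1) (hE 2)
  have h4 : algebraMap F K y ∈ E :=
    hr _ 2 two_ne_zero (by rw [map_hy hy]; exact add_mem (pow_mem h1 3) h1)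
  obtain ⟨m, hm, h5⟩ := h3 (mem_adjoin_map hF h1 h4)
  rintro _ (rfl | rfl | rfl | rfl)
  exacts [h1, h4, h2, hr _ m hm h5]

theorem der_zero [CharZero k] (hx : Transcendental k x) (hy : y ^ 2 = x ^ 3 + x)
    (hF : IntermediateField.adjoin k {x, y} = ⊤) {d : Derivation k K K}
    (hd : d (algebraMap F K x) = 0) (c : F) : d (algebraMap F K c) = 0 := by
  have hc : c ∈ IntermediateField.adjoin k {x, y} := hF ▸ IntermediateField.mem_top
  have : CharZero K := charZero_of_injective_algebraMap (algebraMap k K).injective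
  induction hc using IntermediateField.adjoin_induction with
  | mem a ha =>
    rcases ha with rfl | rfl
    · exact hd
    · have h := congrArg d (map_hy (K := K) hy)
      have h0 : algebraMap F K a ≠ 0 := by simpa using y_ne hx hy 0
      rw [map_add, d.leibniz_pow, d.leibniz_pow, hd] at h
      simpa [h0] using h
  | algebraMap c => rw [← IsScalarTower.algebraMap_apply, d.map_algebraMap]
  | add a b _ _ ih ih' => rw [map_add, map_add, ih, ih', add_zero]
  | inv a _ ih => rw [map_inv₀, d.leibniz_inv, ih, smul_zero]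
  | mul a b _ _ ih ih' => rw [map_mul, d.leibniz, ih, ih', smul_zero, smul_zero, add_zero]

variable {v : Valuation K (WithZero (Multiplicative ℤ))}

omit [IsScalarTower k F K] in
theorem der_chart (hx : Transcendental k x) {a b : F}
    (h : a = x ∧ b = y ∨ a = x⁻¹ ∧ b = -y / x ^ 2) {d : Derivation k K K}
    (hd : d (algebraMap F K x) = algebraMap F K y) : d (algebraMap F K a) = algebraMap F K b := by
  rcases h with ⟨rfl, rfl⟩ | ⟨rfl, rfl⟩
  · exact hd
  · rw [map_inv₀, d.leibniz_inv, hd, map_div₀, map_neg, map_pow, smul_eq_mul]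
    ring

theorem good_F [IsAlgClosed k] [CharZero k] (hx : Transcendental k x) (hy : y ^ 2 = x ^ 3 + x)
    (hF : IntermediateField.adjoin k {x, y} = ⊤) (hv : ∀ c : k, v (algebraMap k K c) ≤ 1)
    {d : Derivation k K K} (hd : d (algebraMap F K x) = algebraMap F K y) {c : F}
    (hc : v (algebraMap F K c) ≤ 1) : algebraMap F K c ∈ good v d := by
  obtain ⟨a, b, -, h1, h2, h3, h4, h5, -⟩ := chart hx hy hF (v.comap (algebraMap F K))
  exact good_of_div hv (map_hx h1) (map_hy h2) (der_chart hx h5 hd) h4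
    (mem_adjoin_map h3 (IntermediateField.subset_adjoin _ _ (by simp))
      (IntermediateField.subset_adjoin _ _ (by simp)) c) hc

/-- The form dx / y is regular. -/
theorem rg_eta [CharZero k] (hx : Transcendental k x) (hy : y ^ 2 = x ^ 3 + x)
    (hF : IntermediateField.adjoin k {x, y} = ⊤) (hv : ∀ c : k, v (algebraMap k K c) ≤ 1)
    {d : Derivation k K K} (hd : d (algebraMap F K x) = 1) {w : Form k K 3}
    {c : K} (H : ∀ b : F, v (algebraMap F K b) ≤ 1 → Rg v w (c * d (algebraMap F K b))) :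
    Rg v w (c / algebraMap F K y) := by
  obtain ⟨a, b, -, h1, h2, -, h4, h5, -⟩ := chart hx hy hF (v.comap (algebraMap F K))
  have hY : algebraMap F K y ≠ 0 := by simpa using y_ne hx hy 0
  have e1 := der_chart hx h5 (d := algebraMap F K y • d) (by rw [Derivation.smul_apply, hd, smul_eq_mul, mul_one])
  have e2 := d_y (map_hx h1) (map_hy h2) e1
  have e3 := map_hy (K := K) h2
  have h6 : v (algebraMap F K a) ≤ 1 := h4
  have h7 := v_y_le e3 h6
  have H1 := H a h6
  have H2 := H b h7
  have hv2 : v 2 = 1 := by simpa only [map_ofNat] using v_const hv (two_ne_zero' k)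
  have h20 : (2 : K) ≠ 0 := v.ne_zero_iff.1 (by rw [hv2]; exact one_ne_zero)
  simp only [Derivation.smul_apply, smul_eq_mul] at e1 e2
  generalize algebraMap F K a = A at *
  generalize algebraMap F K b = B at *
  have : c / algebraMap F K y = (3 * A ^ 2 + 2) * (c * d B) + -(9 * A * B) / 2 * (c * d A) := by
    field_simp
    linear_combination c * (-(3 * A ^ 2 + 2) * e2 + 9 * A * B * e1 + 9 * A * e3)
  rw [this]
  refine (Rg.mul ?_ H2).add (Rg.mul ?_ H1)
  · exact add_mem (s := v.integer) (mul_mem (s := v.integer) (ofNat_mem v.integer 3)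
      (pow_mem (S := v.integer) h6 2)) (ofNat_mem v.integer 2)
  · rw [map_div₀, hv2, div_one, v.map_neg]
    exact mul_mem (s := v.integer) (mul_mem (s := v.integer) (ofNat_mem v.integer 9) h6) h7

end Pool.Agent.MP_dd9dc3_ag

end

-- part MP_dd9dc3_ag.Divs
section

/-!
The canonical divisor of X, the exceptional divisor with log discrepancy one, the lower bound.
-/

namespace Pool.Agent.MP_dd9dc3_ag

open WithZero

universe u

variable {k : Type*} {F K : Type u} [Field k] [Field F] [Field K] [Algebra k F] [Algebra F K]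
  [Algebra k K] [IsScalarTower k F K]

/-- The data of the construction. -/
structure Dat (x y h : F) (r : ℕ) (t s : K) (d0 d1 d2 : Derivation k K K)
    (w : Form k K 3) : Prop where
  hx : Transcendental k x
  hy : y ^ 2 = x ^ 3 + x
  hF : IntermediateField.adjoin k {x, y} = ⊤
  hts : AlgebraicIndependent F ![t, s]
  hK : IntermediateField.adjoin F (Set.range ![t, s]) = ⊤
  hr : r ≠ 0
  hh : h ∈ Algebra.adjoin k {x, y}
  hh0 : h ≠ 0
  hβ : ∀ v : Valuation F (WithZero (Multiplicative ℤ)), (∀ c : k, v (algebraMap k F c) ≤ 1) →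
    ∃ β : F, β ≠ 0 ∧ v h = v β ^ r
  hw : Frame d0 d1 d2 w
  h0 : d0 (algebraMap F K x) = 1 ∧ d0 t = 0 ∧ d0 s = 0
  h1 : d1 (algebraMap F K x) = 0 ∧ d1 t = 1 ∧ d1 s = 0
  h2 : d2 (algebraMap F K x) = 0 ∧ d2 t = 0 ∧ d2 s = 1

/-- The three functions t, x t ^ 2, h s ^ r. -/
def zz (x h : F) (r : ℕ) (t s : K) : Fin 3 → K :=
  ![t, algebraMap F K x * t ^ 2, algebraMap F K h * s ^ r]

/-- The local equation of r K_X. -/
def ph (y h : F) (r : ℕ) (t : K) : K := (algebraMap F K y * t) ^ r / algebraMap F K h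

theorem loc_unit {A : Subalgebra k K} {p : Ideal A} (hp : p.IsPrime)
    {v : Valuation K (WithZero (Multiplicative ℤ))}
    (H : ∀ f : K, v f ≤ 1 ↔ ∃ a b : A, b ∉ p ∧ f * b = a) :
    (∀ f ∈ A, v f ≤ 1) ∧ ∀ b : A, b ∉ p → v b = 1 := by
  have h1 : ∀ f ∈ A, v f ≤ 1 := fun f hf =>
    (H f).2 ⟨⟨f, hf⟩, 1, (Ideal.ne_top_iff_one _).1 hp.ne_top, by simp⟩
  refine ⟨h1, fun b hb => le_antisymm (h1 b b.2) ?_⟩
  have hb0 : (b : K) ≠ 0 := fun h => hb (by rw [show b = 0 from Subtype.ext h]; exact zero_mem _)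
  have := (H (b : K)⁻¹).2 ⟨1, b, hb, by simp [hb0]⟩
  rwa [v.val_le_one_iff (inv_ne_zero hb0), inv_inv] at this

theorem clos_le_sub {z : Fin 3 → K} {B : Subring K} (hc : ∀ c : k, algebraMap k K c ∈ B)
    (hz : ∀ i, z i ∈ B) {f : K} (hf : f ∈ clos k z) : IsIntegral B f := by
  refine integral_mono (fun g hg => ?_) hf
  induction hg using Algebra.adjoin_induction with
  | mem a ha =>
    obtain ⟨i, rfl⟩ := ha
    exact hz i
  | algebraMap c => exact hc c
  | add a b _ _ ih ih' => exact add_mem ih ih'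
  | mul a b _ _ ih ih' => exact mul_mem ih ih'

variable {x y h : F} {r : ℕ} {t s : K} {d0 d1 d2 : Derivation k K K}
  {w : Form k K 3} {v : Valuation K (WithZero (Multiplicative ℤ))}

theorem comap_const (hv : ∀ c : k, v (algebraMap k K c) ≤ 1) (c : k) :
    v.comap (algebraMap F K) (algebraMap k F c) ≤ 1 := by
  rw [Valuation.comap_apply, ← IsScalarTower.algebraMap_apply]
  exact hv c

namespace Dat

variable (D : Dat x y h r t s d0 d1 d2 w)
include D

omit [IsScalarTower k F K]

theorem t0 : t ≠ 0 := D.hts.ne_zero 0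

theorem s0 : s ≠ 0 := D.hts.ne_zero 1

theorem x0 : algebraMap F K x ≠ 0 := by simpa using x_ne D.hx 0

theorem y0 : algebraMap F K y ≠ 0 := by simpa using y_ne D.hx D.hy 0

theorem hK0 : algebraMap F K h ≠ 0 := by simpa using D.hh0

theorem ph0 : ph y h r t ≠ 0 := div_ne_zero (pow_ne_zero _ (mul_ne_zero D.y0 D.t0)) D.hK0

theorem ord_ph {b : K} (hb : v (algebraMap F K h) = v b ^ r) :
    ord v (ph y h r t) = r * (ord v (algebraMap F K y) + ord v t - ord v b) := by
  rw [ph, ord_div (pow_ne_zero _ (mul_ne_zero D.y0 D.t0)) D.hK0, ord_pow, ord_mul D.y0 D.t0,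
    ord_congr (hb.trans (map_pow v b r).symm), ord_pow]
  ring

end Dat

namespace Dat

variable [CharZero k] (D : Dat x y h r t s d0 d1 d2 w)
include D

theorem d1F (c : F) : d1 (algebraMap F K c) = 0 := der_zero D.hx D.hy D.hF D.h1.1 c

theorem d2F (c : F) : d2 (algebraMap F K c) = 0 := der_zero D.hx D.hy D.hF D.h2.1 c

omit [CharZero k] in
theorem tb_zz : IsTranscendenceBasis k (zz x h r t s) := by
  refine triple_tb D.hx D.hy D.hF D.hts D.hK fun E h1 h2 h3 => ⟨?_, h1, fun H => ⟨r, D.hr, ?_⟩⟩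
  · have := div_mem h2 (pow_mem h1 2)
    rwa [mul_div_cancel_right₀ _ (pow_ne_zero _ D.t0)] at this
  · have := div_mem h3 (H h)
    rwa [mul_div_cancel_left₀ _ D.hK0] at this

theorem lower (hs : Function.Surjective v) (hv : ∀ c : k, v (algebraMap k K c) ≤ 1)
    (hc : v (algebraMap F K h * s ^ r) < 1) {n : ℤ} (hn : HasOrd v w n) :
    ord v (ph y h r t) ≤ r * n := by
  obtain ⟨β, hβ, hb⟩ := D.hβ _ (comap_const hv)
  simp only [Valuation.comap_apply] at hb
  have hb0 : algebraMap F K β ≠ 0 := by simpa using hβ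
  obtain ⟨π, hπ, hπ1⟩ := exists_ord hs 1
  have h1 : Rg v w (π / (t * s) / algebraMap F K y) := by
    refine rg_eta D.hx D.hy D.hF hv D.h0.1 fun b hb => ?_
    have := D.hw.rg_log hπ hπ1 hb D.t0 D.s0
    simpa [jac, D.d1F, D.d2F, D.h1.2.1, D.h1.2.2, D.h2.2.1, D.h2.2.2] using this
  have hts := mul_ne_zero D.t0 D.s0
  have h2 := (hn _ (div_ne_zero (div_ne_zero hπ hts) D.y0)).1 h1
  rw [ord_div (div_ne_zero hπ hts) D.y0, ord_div hπ hts, ord_mul D.t0 D.s0, hπ1] at h2
  have h3 := ord_pos (mul_ne_zero D.hK0 (pow_ne_zero _ D.s0)) hc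
  rw [ord_mul D.hK0 (pow_ne_zero _ D.s0), ord_congr (hb.trans (map_pow v _ r).symm), ord_pow,
    ord_pow, ← mul_add] at h3
  have h4 := pos_of_mul_pos_right h3 (Int.natCast_nonneg r)
  rw [D.ord_ph hb]
  exact mul_le_mul_of_nonneg_left (by omega) (Int.natCast_nonneg r)

variable [IsAlgClosed k]

theorem div_ord (hD : IsDiv (clos k (zz x h r t s)) v) :
    ∃ n : ℤ, HasOrd v w n ∧ r * n = ord v (ph y h r t) := by
  obtain ⟨hs, p, hp, hp1, hloc⟩ := hD
  obtain ⟨hA, hu⟩ := loc_unit hp hloc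
  have hv : ∀ c : k, v (algebraMap k K c) ≤ 1 := fun c => hA _ (Subalgebra.algebraMap_mem _ c)
  obtain ⟨β, hβ, hb⟩ := D.hβ _ (comap_const hv)
  obtain ⟨-, -, α, -, -, -, -, -, hα, a1, a2, a3⟩ := chart D.hx D.hy D.hF (v.comap (algebraMap F K))
  simp only [Valuation.comap_apply] at hb a1 a2 a3
  have hb0 : algebraMap F K β ≠ 0 := by simpa using hβ
  have ha0 : algebraMap F K α ≠ 0 := by simpa using hα
  have t0 := D.t0
  have s0 := D.s0
  have y0 := D.y0
  have x0 := D.x0
  obtain ⟨hT, hT'⟩ := pair_top D.hts D.hK (a := algebraMap F K α * t) (b := algebraMap F K β * s)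
    fun E h1 h2 => ⟨by simpa [ha0] using div_mem h1 (E.algebraMap_mem α),
      by simpa [hb0] using div_mem h2 (E.algebraMap_mem β)⟩
  have e0 : t = algebraMap F K α⁻¹ * (algebraMap F K α * t) := by simp [ha0]
  have e1 : algebraMap F K x * t ^ 2 = algebraMap F K (x / α ^ 2) * (algebraMap F K α * t) ^ 2 := by
    rw [map_div₀, map_pow]
    field_simp
  have e2 : algebraMap F K h * s ^ r = algebraMap F K (h / β ^ r) * (algebraMap F K β * s) ^ r := by
    rw [map_div₀, map_pow, mul_pow]
    field_simp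
  have b1 : v (algebraMap F K (h / β ^ r)) = 1 := by
    rw [map_div₀, map_pow, map_div₀, map_pow]
    exact (div_eq_one_iff_eq (pow_ne_zero _ (v.ne_zero_iff.2 hb0))).2 hb
  have hle : ∀ f ∈ clos k (zz x h r t s), f ∈ pr (v.comap (algebraMap F K)).integer
      ![algebraMap F K α * t, algebraMap F K β * s] := by
    intro f hf
    refine mem_pr_of_integral hT hT' (fun c hc => (Valuation.integer.integers _).mem_of_integral hc)
      (clos_le_sub (fun c => ?_) (fun i => ?_) hf)
    · rw [IsScalarTower.algebraMap_apply k F K]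
      exact const_mem_pr _ (comap_const hv c)
    · fin_cases i
      · exact Set.mem_of_eq_of_mem e0 (mul_mem (const_mem_pr _ a1) (gen_mem_pr _ _ 0))
      · exact Set.mem_of_eq_of_mem e1 (mul_mem (const_mem_pr _ a2) (pow_mem (gen_mem_pr _ _ 0) 2))
      · exact Set.mem_of_eq_of_mem e2
          (mul_mem (const_mem_pr _ b1.le) (pow_mem (gen_mem_pr _ _ 1) r))
  have z0 : v t ≤ 1 := hA _ (gen_mem_clos _ 0)
  have z1 : v (algebraMap F K x * t ^ 2) ≤ 1 := hA _ (gen_mem_clos _ 1)
  have z2 : v (algebraMap F K h * s ^ r) ≤ 1 := hA _ (gen_mem_clos _ 2)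
  have vs : v (algebraMap F K β * s) ≤ 1 := by
    rwa [e2, map_mul, b1, one_mul, map_pow, pow_le_one_iff D.hr] at z2
  have vt : v (algebraMap F K α * t) ≤ 1 := by
    rcases a3 with a3 | a3
    · exact mul_mem (s := v.integer) a3 z0
    · rw [← pow_le_one_iff (n := 2) two_ne_zero, ← map_pow,
        show (algebraMap F K α * t) ^ 2 = algebraMap F K (α ^ 2 / x) * (algebraMap F K x * t ^ 2) by
          rw [map_div₀, map_pow]; field_simp]
      exact mul_mem (s := v.integer) a3 z1
  have vt1 : v (algebraMap F K α * t) = 1 := by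
    have := essFin D.hF D.hK
    refine vt.eq_of_not_lt fun hlt => (clos_model D.tb_zz).2.2.2 p hp hp1 ?_ ?_
    · by_contra hn
      refine absurd (hu _ hn) (ne_of_lt ?_)
      change v t < 1
      rw [e0, map_mul]
      exact (mul_le_of_le_one_left' a1).trans_lt hlt
    · by_contra hn
      refine absurd (hu _ hn) (ne_of_lt ?_)
      change v (algebraMap F K x * t ^ 2) < 1
      rw [e1, map_mul, map_pow v]
      exact (mul_le_of_le_one_left' a2).trans_lt (pow_lt_one₀ zero_le hlt two_ne_zero)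
  have key : ∀ e : Derivation k K K, (∀ c, v (algebraMap F K c) ≤ 1 → v (e (algebraMap F K c)) ≤ 1)
      → v (e (algebraMap F K α * t)) ≤ 1 → v (e (algebraMap F K β * s)) ≤ 1 →
      ∀ f, v f ≤ 1 → v (e f) ≤ 1 := by
    intro e h1 h2 h3 f hf
    have hg := pr_le (B := good v e) (O := (v.comap (algebraMap F K)).integer)
      (T := ![algebraMap F K α * t, algebraMap F K β * s]) (fun c hc => ⟨hc, h1 c hc⟩)
      (fun i => by fin_cases i; exacts [⟨vt, h2⟩, ⟨vs, h3⟩])
    obtain ⟨a, b, hb, hab⟩ := (hloc f).1 hf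
    have hb1 := hu b hb
    rw [eq_div_of_mul_eq (v.ne_zero_iff.1 (by rw [hb1]; exact one_ne_zero)) hab]
    exact (good_div (hg (hle a a.2)) (hg (hle b b.2)) hb1).2
  have k0 := key (algebraMap F K y • d0 -
      (algebraMap F K y * d0 (algebraMap F K α) / algebraMap F K α * t) • d1 -
      (algebraMap F K y * d0 (algebraMap F K β) / algebraMap F K β * s) • d2)
    (fun c hc => (good_F D.hx D.hy D.hF hv (by
      simp only [Derivation.sub_apply, Derivation.smul_apply, D.h0.1, D.h1.1, D.h2.1, smul_eq_mul]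
      ring) hc).2)
    (le_of_eq_of_le (congrArg v (by
      simp only [Derivation.sub_apply, Derivation.smul_apply, Derivation.leibniz, D.h0.2.1,
        D.h1.2.1, D.h2.2.1, D.d1F, D.d2F, smul_eq_mul]
      field_simp
      ring)) (show v 0 ≤ 1 by simp))
    (le_of_eq_of_le (congrArg v (by
      simp only [Derivation.sub_apply, Derivation.smul_apply, Derivation.leibniz, D.h0.2.2,
        D.h1.2.2, D.h2.2.2, D.d1F, D.d2F, smul_eq_mul]
      field_simp
      ring)) (show v 0 ≤ 1 by simp))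
  have k1 := key ((algebraMap F K α)⁻¹ • d1)
    (fun c _ => by simp only [Derivation.smul_apply, D.d1F, smul_zero, map_zero, zero_le])
    (by simp only [Derivation.smul_apply, Derivation.leibniz, D.d1F, D.h1.2.1, smul_eq_mul, mul_one,
      mul_zero, add_zero, mul_inv_cancel₀ ha0, map_one, le_refl])
    (by simp only [Derivation.smul_apply, Derivation.leibniz, D.d1F, D.h1.2.2, smul_eq_mul,
      mul_zero, add_zero, map_zero, zero_le])
  have k2 := key ((algebraMap F K β)⁻¹ • d2)
    (fun c _ => by simp only [Derivation.smul_apply, D.d2F, smul_zero, map_zero, zero_le])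
    (by simp only [Derivation.smul_apply, Derivation.leibniz, D.d2F, D.h2.2.1, smul_eq_mul,
      mul_zero, add_zero, map_zero, zero_le])
    (by simp only [Derivation.smul_apply, Derivation.leibniz, D.d2F, D.h2.2.2, smul_eq_mul, mul_one,
      mul_zero, add_zero, mul_inv_cancel₀ hb0, map_one, le_refl])
  have hab := mul_ne_zero ha0 hb0
  refine ⟨_, D.hw.hasOrd (κ := algebraMap F K α * algebraMap F K β / algebraMap F K y)
    (div_ne_zero hab y0) ?_ fun a b c ha hb hc => ?_, ?_⟩
  · refine rg_eta D.hx D.hy D.hF hv D.h0.1 fun b hb => ?_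
    have := D.hw.rg hb vt vs
    simp only [jac, Derivation.leibniz, D.d1F, D.d2F, D.h1.2.1, D.h1.2.2, D.h2.2.1, D.h2.2.2,
      smul_eq_mul, mul_one, mul_zero, add_zero, zero_mul, sub_zero] at this
    rwa [mul_comm]
  · have := jac_le (fun f hf => ⟨k0 f hf, k1 f hf, k2 f hf⟩) ha hb hc
    refine le_of_eq_of_le ?_ (mul_le_of_le_one_right' this)
    rw [← map_mul]
    congr 1
    simp only [jac, Derivation.sub_apply, Derivation.smul_apply, smul_eq_mul]
    field_simp
    ring
  · have := ord_of_one vt1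
    rw [ord_mul ha0 t0] at this
    rw [D.ord_ph hb, ord_div hab y0, ord_mul ha0 hb0]
    congr 1
    omega

end Dat

end Pool.Agent.MP_dd9dc3_ag

end

-- part MP_dd9dc3_ag.Main
section

/-!
The blow-up of the zero section, the index, and the assembly.
-/

namespace Pool.Agent.MP_dd9dc3_ag

open WithZero

universe u

variable {k : Type*} {F K : Type u} [Field k] [Field F] [Field K] [Algebra k F] [Algebra F K]
  [Algebra k K] [IsScalarTower k F K]

theorem two_pow_dvd [IsAlgClosed k] {h : F} (h0 : h ≠ 0) (hs : ∀ f, h ≠ f ^ 2) (j : ℕ) :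
    ∀ (m : ℕ) (f : F), h ^ m = f ^ 2 ^ j → 2 ^ j ∣ m := by
  induction j with
  | zero => simp
  | succ j ih =>
    intro m f hf
    rw [pow_succ, pow_mul] at hf
    obtain ⟨i, rfl | rfl⟩ := Nat.even_or_odd' m
    · rw [pow_succ']
      refine mul_dvd_mul_left 2 ?_
      rw [mul_comm, pow_mul] at hf
      rcases sq_eq_sq_iff_eq_or_eq_neg.1 hf with h1 | h1
      · exact ih _ _ h1
      · obtain ⟨z, hz⟩ := IsAlgClosed.exists_pow_nat_eq (-1 : k) (Nat.two_pow_pos j)
        refine ih _ (algebraMap k F z * f) ?_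
        rw [h1, mul_pow, ← map_pow, hz]
        simp
    · refine absurd ?_ (hs (f ^ 2 ^ j / h ^ i))
      rw [div_pow, ← hf]
      field_simp
      ring

theorem v_triv {v : Valuation K (WithZero (Multiplicative ℤ))}
    (hv : ∀ c : F, v (algebraMap F K c) ≤ 1) {c : F} (hc : c ≠ 0) : v (algebraMap F K c) = 1 :=
  v_const hv hc

variable {x y h : F} {r : ℕ} {t s : K} {d0 d1 d2 : Derivation k K K}
  {w : Form k K 3} {v : Valuation K (WithZero (Multiplicative ℤ))}

theorem map_adjoin {B : Subalgebra k K} (h1 : algebraMap F K x ∈ B) (h2 : algebraMap F K y ∈ B)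
    {a : F} (ha : a ∈ Algebra.adjoin k {x, y}) : algebraMap F K a ∈ B := by
  have : Algebra.adjoin k {x, y} ≤ B.comap (IsScalarTower.toAlgHom k F K) := by
    rw [Algebra.adjoin_le_iff]
    rintro _ (rfl | rfl)
    · exact h1
    · exact h2
  exact this ha

theorem clear_den (hF : IntermediateField.adjoin k {x, y} = ⊤) {B : Subalgebra k K}
    (h1 : algebraMap F K x ∈ B) (h2 : algebraMap F K y ∈ B) {T : Fin 2 → K} (hT : ∀ i, T i ∈ B)
    {a : K} (ha : a ∈ pr (⊤ : Subring F) T) :
    ∃ c : F, c ≠ 0 ∧ algebraMap F K c ∈ B ∧ algebraMap F K c * a ∈ B := by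
  let S : Subring K :=
    { carrier := {a | ∃ c : F, c ≠ 0 ∧ algebraMap F K c ∈ B ∧ algebraMap F K c * a ∈ B}
      mul_mem' := by
        rintro a b ⟨c, hc, c1, c2⟩ ⟨e, he, e1, e2⟩
        refine ⟨c * e, mul_ne_zero hc he, by rw [map_mul]; exact mul_mem c1 e1, ?_⟩
        rw [map_mul, mul_mul_mul_comm]
        exact mul_mem c2 e2
      one_mem' := ⟨1, one_ne_zero, by simp, by simp⟩
      add_mem' := by
        rintro a b ⟨c, hc, c1, c2⟩ ⟨e, he, e1, e2⟩
        refine ⟨c * e, mul_ne_zero hc he, by rw [map_mul]; exact mul_mem c1 e1, ?_⟩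
        rw [map_mul, mul_add, mul_comm (algebraMap F K c), mul_assoc, mul_comm (algebraMap F K e)
          (algebraMap F K c), mul_assoc]
        exact add_mem (mul_mem e1 c2) (mul_mem c1 e2)
      zero_mem' := ⟨1, one_ne_zero, by simp, by simp⟩
      neg_mem' := by
        rintro a ⟨c, hc, c1, c2⟩
        exact ⟨c, hc, c1, by rw [mul_neg]; exact neg_mem c2⟩ }
  refine pr_le (B := S) (fun f _ => ?_) (fun i => ⟨1, one_ne_zero, by simp, by simpa using hT i⟩) ha
  obtain ⟨p, hp, q, hq, rfl⟩ := (IntermediateField.mem_adjoin_iff_div (F := k) (S := {x, y})).1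
    (hF ▸ IntermediateField.mem_top (x := f))
  by_cases hq0 : q = 0
  · rw [hq0, div_zero, map_zero]
    exact zero_mem _
  · exact ⟨q, hq0, map_adjoin h1 h2 hq, by
      rw [← map_mul, mul_div_cancel₀ _ hq0]; exact map_adjoin h1 h2 hp⟩

namespace Dat

variable [CharZero k] [IsAlgClosed k] (D : Dat x y h r t s d0 d1 d2 w)
include D

theorem exists_E0 : ∃ (B : Subalgebra k K) (v : Valuation K (WithZero (Multiplicative ℤ))),
    IsModel B ∧ clos k (zz x h r t s) ≤ B ∧ IsDiv B v ∧ HasOrd v w 1 ∧ ord v t = 1 ∧ v t < 1 ∧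
      v s < 1 ∧ ∀ c : F, v (algebraMap F K c) ≤ 1 := by
  have t0 := D.t0
  have y0 := D.y0
  have e : s = t * (s / t) := by field_simp
  obtain ⟨hT, hT'⟩ := pair_top D.hts D.hK (a := t) (b := s / t)
    fun E h1 h2 => ⟨h1, Set.mem_of_eq_of_mem e (mul_mem h1 h2)⟩
  obtain ⟨v, hs, v1, v2, hvF, H⟩ := exists_v0 hT hT'
  change v t = _ at v1
  change v (s / t) = _ at v2
  have vt : v t < 1 := by rw [v1, ← exp_zero, exp_lt_exp]; decide
  have ot : ord v t = 1 := by rw [ord, v1, log_exp, neg_neg]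
  have hv : ∀ c : k, v (algebraMap k K c) ≤ 1 := fun c => by
    rw [IsScalarTower.algebraMap_apply k F K]; exact hvF _
  have := essFin D.hF D.hK
  have tb : IsTranscendenceBasis k ![algebraMap F K x, t, s / t] :=
    triple_tb D.hx D.hy D.hF D.hts D.hK fun E h1 h2 h3 =>
      ⟨h1, h2, fun _ => ⟨1, one_ne_zero, by rw [pow_one, e]; exact mul_mem h2 h3⟩⟩
  obtain ⟨hM, hN, -, -⟩ := clos_model tb
  have mx : algebraMap F K x ∈ clos k ![algebraMap F K x, t, s / t] := gen_mem_clos _ 0
  have mt : t ∈ clos k ![algebraMap F K x, t, s / t] := gen_mem_clos _ 1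
  have ms : s / t ∈ clos k ![algebraMap F K x, t, s / t] := gen_mem_clos _ 2
  have hB : ∀ f ∈ clos k ![algebraMap F K x, t, s / t], v f ≤ 1 := fun f hf =>
    clos_le hv (fun i => by fin_cases i; exacts [hvF x, vt.le, v2.le]) hf
  have hcl : ∀ {f}, IsIntegral (clos k ![algebraMap F K x, t, s / t]) f →
      f ∈ clos k ![algebraMap F K x, t, s / t] := mem_clos_of_integral le_rfl
  generalize clos k ![algebraMap F K x, t, s / t] = B at *
  have my : algebraMap F K y ∈ B := by
    refine hcl (IsIntegral.of_pow two_pos ?_)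
    rw [map_hy D.hy]
    exact isIntegral_algebraMap (x := (⟨_, add_mem (pow_mem mx 3) mx⟩ : B))
  have hloc : ∀ f, v f ≤ 1 ↔ ∃ a b : B, b ∉ centre B v hB ∧ f * b = a := by
    refine fun f => ⟨fun hf => ?_, ?_⟩
    · obtain ⟨a, ha, b, hb, hb1, hab⟩ := H f hf
      have hT2 : ∀ i, ![t, s / t] i ∈ B := fun i => by fin_cases i; exacts [mt, ms]
      obtain ⟨c, hc, c1, c2⟩ := clear_den D.hF mx my hT2 ha
      obtain ⟨g, hg, g1, g2⟩ := clear_den D.hF mx my hT2 hb
      refine ⟨⟨_, mul_mem g1 c2⟩, ⟨_, mul_mem c1 g2⟩, ?_, by simp only [← hab]; ring⟩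
      simp only [mem_centre, map_mul, v_triv hvF hc, v_triv hvF hg, hb1, mul_one, lt_irrefl,
        not_false_eq_true]
    · rintro ⟨a, b, hb, hab⟩
      have h1 := hB a a.2
      rwa [← hab, map_mul, le_antisymm (hB b b.2) (not_lt.1 hb), mul_one] at h1
  have hp := centre_prime hB
  have := hM.2.2
  have hht := (exists_val (K := K) (centre B v hB) (π := ⟨t, mt⟩) vt
    (fun h => t0 (congrArg Subtype.val h)) (fun b hb => by
      have : v (b / t) ≤ 1 := by
        by_cases hb0 : (b : K) = 0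
        · simp [hb0]
        · have := ord_pos hb0 hb
          rw [map_div₀]
          exact div_le_one_of_le₀ ((ord_le_iff t0 hb0).1 (by omega)) zero_le
      obtain ⟨a, c, hc, hac⟩ := (hloc _).1 this
      refine ⟨c, a, hc, Subtype.ext ?_⟩
      simp only [MulMemClass.coe_mul, ← hac]
      field_simp)).1
  have key : ∀ e : Derivation k K K, (∀ c, v (e (algebraMap F K c)) ≤ 1) → v (e t) ≤ 1 →
      v (e (s / t)) ≤ 1 → ∀ f, v f ≤ 1 → v (e f) ≤ 1 := by
    intro e h1 h2 h3 f hf
    have hg := pr_le (B := good v e) (O := (⊤ : Subring F)) (T := ![t, s / t])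
      (fun c _ => ⟨hvF c, h1 c⟩) (fun i => by fin_cases i; exacts [⟨vt.le, h2⟩, ⟨v2.le, h3⟩])
    obtain ⟨a, ha, b, hb, hb1, hab⟩ := H f hf
    rw [eq_div_of_mul_eq (v.ne_zero_iff.1 (by rw [hb1]; exact one_ne_zero)) hab]
    exact (good_div (hg ha) (hg hb) hb1).2
  have q0 : d0 (s / t) = 0 := by rw [d0.leibniz_div, D.h0.2.1, D.h0.2.2]; simp
  have q1 : d1 (s / t) = -(s / t) / t := by
    rw [d1.leibniz_div, D.h1.2.1, D.h1.2.2]
    simp only [smul_eq_mul]
    field_simp
    ring
  have q2 : d2 (s / t) = 1 / t := by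
    rw [d2.leibniz_div, D.h2.2.1, D.h2.2.2]
    simp only [smul_eq_mul]
    field_simp
    ring
  have k0 := key (algebraMap F K y • d0)
    (fun c => (good_F D.hx D.hy D.hF hv (by
      rw [Derivation.smul_apply, D.h0.1, smul_eq_mul, mul_one]) (hvF c)).2)
    (by simp [Derivation.smul_apply, D.h0.2.1]) (by simp [Derivation.smul_apply, q0])
  have k1 := key (d1 + (s / t) • d2) (fun c => by simp [D.d1F, D.d2F])
    (by simp [D.h1.2.1, D.h2.2.1]) (le_of_eq_of_le (congrArg v (by
      simp only [Derivation.add_apply, Derivation.smul_apply, q1, q2, smul_eq_mul]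
      ring)) (show v 0 ≤ 1 by simp))
  have k2 := key (t • d2) (fun c => by simp [D.d2F]) (by simp [D.h2.2.1]) (by simp [q2, t0])
  have hy1 : v (algebraMap F K y) = 1 := v_triv hvF (by simpa using y0)
  refine ⟨B, v, hM, fun f hf => hcl (clos_le_sub (B := B.toSubring) B.algebraMap_mem
    (fun i => ?_) hf), ⟨hs, _, hp, hht, hloc⟩, ?_, ot, vt, ?_, hvF⟩
  · fin_cases i
    · exact mt
    · exact mul_mem mx (pow_mem mt 2)
    · exact mul_mem (map_adjoin mx my D.hh) (pow_mem (Set.mem_of_eq_of_mem e (mul_mem mt ms)) r)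
  · have := D.hw.hasOrd (v := v) (κ := 1 / t) (one_div_ne_zero t0) (by
      have := D.hw.rg (hvF x) vt.le v2.le
      simpa [jac, D.h0.1, D.h1.1, D.h2.1, D.h1.2.1, D.h2.2.1, q2] using this) (fun a b c ha hb hc => by
      have := jac_le (fun f hf => ⟨k0 f hf, k1 f hf, k2 f hf⟩) ha hb hc
      refine le_of_eq_of_le ?_ (mul_le_of_le_one_right' this)
      rw [← map_mul, ← one_mul (v (jac d0 d1 d2 a b c)), ← hy1, ← map_mul]
      congr 1
      simp only [jac, Derivation.add_apply, Derivation.smul_apply, smul_eq_mul]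
      field_simp
      ring)
    rwa [ord_div one_ne_zero t0, ord_of_one (map_one v), ot] at this
  · rw [e, map_mul, v2, mul_one]
    exact vt

theorem pow_of_cartier (hvF : ∀ c : F, v (algebraMap F K c) ≤ 1) (vt : v t < 1) (vs : v s < 1)
    (hA : ∀ f ∈ clos k (zz x h r t s), v f ≤ 1) {m : ℕ}
    (H : IsCartier (clos k (zz x h r t s)) (centre _ v hA) w m) : ∃ f : F, h ^ m = f ^ r := by
  obtain ⟨φ, hφ, g, hg, H⟩ := H
  have := essFin D.hF D.hK
  obtain ⟨⟨-, hic, hfr⟩, hN, -, -⟩ := clos_model D.tb_zz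
  have hv : ∀ c : k, v (algebraMap k K c) ≤ 1 := fun c => by
    rw [IsScalarTower.algebraMap_apply k F K]; exact hvF _
  have hψ : φ ^ r / ph y h r t ^ m ≠ 0 := div_ne_zero (pow_ne_zero _ hφ) (pow_ne_zero _ D.ph0)
  have key : ∀ ψ : K, (∀ u : Valuation K (WithZero (Multiplicative ℤ)),
      u (φ ^ r / ph y h r t ^ m) = 1 → u ψ ≤ 1) →
      ∃ (N : ℕ) (a : clos k (zz x h r t s)), ψ * (g : K) ^ N = a := by
    intro ψ hψ'
    obtain ⟨N, a, ha⟩ := hartogs ψ g fun p π hp hgp hπ hπ0 hH => by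
      obtain ⟨h1, u, hu, -, h2⟩ := exists_val (K := K) p hπ hπ0 hH
      have hD : IsDiv _ u := ⟨hu, p, hp, h1, h2⟩
      obtain ⟨n, hn, e1⟩ := H u hD ((loc_unit hp h2).2 g hgp)
      obtain ⟨n', hn', e2⟩ := D.div_ord hD
      obtain rfl := hn.unique hu hn'
      refine (h2 ψ).1 (hψ' u (one_of_ord hψ ?_))
      rw [ord_div (pow_ne_zero _ hφ) (pow_ne_zero _ D.ph0), ord_pow, ord_pow, ← e1, ← e2]
      ring
    exact ⟨N, a, by simpa using ha⟩
  obtain ⟨N, a, ha⟩ := key _ fun u hu => hu.le
  obtain ⟨M, b, hb⟩ := key (φ ^ r / ph y h r t ^ m)⁻¹ fun u hu => by rw [map_inv₀, hu, inv_one]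
  have g1 : v g = 1 := le_antisymm (hA g g.2) (not_lt.1 hg)
  have a1 : v a = 1 := by
    refine le_antisymm (hA a a.2) ?_
    have : (a : K) * b = g ^ N * g ^ M := by
      rw [← ha, ← hb, mul_mul_mul_comm, mul_inv_cancel₀ hψ, one_mul]
    have h1 := congrArg v this
    rw [map_mul, map_mul, map_pow, map_pow, g1, one_pow, one_pow, one_mul] at h1
    rw [← h1]
    exact mul_le_of_le_one_right' (hA b b.2)
  have hint : ∀ {f}, IsIntegral (pr (⊤ : Subring F) ![t, s]) f → f ∈ pr (⊤ : Subring F) ![t, s] :=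
    mem_pr_of_integral D.hts D.hK fun _ _ => Subring.mem_top _
  have hpr : ∀ f : clos k (zz x h r t s), (f : K) ∈ pr (⊤ : Subring F) ![t, s] := fun f => by
    refine hint (clos_le_sub (fun c => ?_) (fun i => ?_) f.2)
    · rw [IsScalarTower.algebraMap_apply k F K]
      exact const_mem_pr _ trivial
    · fin_cases i
      · exact gen_mem_pr _ _ 0
      · exact mul_mem (const_mem_pr _ trivial) (pow_mem (gen_mem_pr _ _ 0) 2)
      · exact mul_mem (const_mem_pr _ trivial) (pow_mem (gen_mem_pr _ _ 1) r)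
  have hres : ∀ f : clos k (zz x h r t s), v f = 1 →
      ∃ c : k, c ≠ 0 ∧ v (f - algebraMap k K c) < 1 := fun f hf => by
    obtain ⟨c, hc⟩ := res_of_integral hv (clos_le_sub (B := res (algebraMap k K) v hv)
      (fun c => ⟨c, by simp⟩) (fun i => ⟨0, by
      rw [map_zero, sub_zero]
      fin_cases i
      · exact vt
      · change v (_ * _) < 1
        rw [map_mul, map_pow]
        exact (mul_le_of_le_one_left' (hvF x)).trans_lt (pow_lt_one₀ zero_le vt two_ne_zero)
      · change v (_ * _) < 1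
        rw [map_mul, map_pow]
        exact (mul_le_of_le_one_left' (hvF h)).trans_lt (pow_lt_one₀ zero_le vs D.hr)⟩) f.2)
    refine ⟨c, ?_, hc⟩
    rintro rfl
    rw [map_zero, sub_zero, hf] at hc
    exact lt_irrefl _ hc
  obtain ⟨a0, ha0, a2⟩ := hres a a1
  obtain ⟨g0, hg0, g2⟩ := hres g g1
  obtain ⟨j, hj⟩ := Nat.exists_eq_succ_of_ne_zero D.hr
  have y0 := D.y0
  have t0 := D.t0
  have h0 := D.hK0
  have e : (φ / (algebraMap F K y * t) ^ m * g ^ N) ^ r * algebraMap F K h ^ m =
      a * ((g : K) ^ N) ^ j := by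
    rw [← ha, ph, mul_pow, div_pow, div_pow, ← pow_mul, mul_comm m r, pow_mul, mul_assoc _ (_ ^ N),
      ← pow_succ', ← Nat.succ_eq_add_one, ← hj]
    field_simp
  have m1 : φ / (algebraMap F K y * t) ^ m * g ^ N ∈ pr (⊤ : Subring F) ![t, s] := by
    refine hint (IsIntegral.of_pow (Nat.pos_of_ne_zero D.hr) ?_)
    rw [eq_div_of_mul_eq (pow_ne_zero _ h0) e, div_eq_mul_inv, ← map_pow, ← map_inv₀]
    exact isIntegral_algebraMap (x := (⟨_, mul_mem (mul_mem (hpr a) (pow_mem (pow_mem (hpr g) N) j))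
      (const_mem_pr _ trivial)⟩ : pr (⊤ : Subring F) ![t, s]))
  obtain ⟨n0, hn0⟩ := pr_le (B := res (algebraMap F K) v hvF) (fun c _ => ⟨c, by simp⟩)
    (fun i => ⟨0, by rw [map_zero, sub_zero]; fin_cases i; exacts [vt, vs]⟩) m1
  have c1 := cg_mul (b := algebraMap F K h ^ m) (d := algebraMap F K h ^ m)
    (by rw [← map_pow]; exact hvF _) (by rw [← map_pow]; exact hvF _) (cg_pow (hvF n0) hn0 r)
    (by simp)
  have c2 := cg_mul (by rw [map_pow, map_pow, g1, one_pow, one_pow]) (hv a0) a2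
    (cg_pow (by rw [← map_pow]; exact hv _) (cg_pow (hv g0) g2 N) j)
  have c3 := v.map_sub_lt c2 c1
  rw [e, sub_sub_sub_cancel_left] at c3
  obtain ⟨z, hz⟩ := IsAlgClosed.exists_pow_nat_eq (a0 * (g0 ^ N) ^ j) (Nat.pos_of_ne_zero D.hr)
  have c4 : n0 ^ r * h ^ m = algebraMap k F z ^ r := by
    by_contra hn
    have := v_triv hvF (sub_ne_zero.2 hn)
    rw [map_sub, map_mul, map_pow, map_pow, ← map_pow (algebraMap k F), hz,
      ← IsScalarTower.algebraMap_apply, map_mul, map_pow, map_pow] at this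
    exact c3.ne this
  have hn : n0 ≠ 0 := by
    rintro rfl
    rw [zero_pow D.hr, zero_mul, ← map_pow, hz, eq_comm, map_eq_zero] at c4
    exact mul_ne_zero ha0 (pow_ne_zero _ (pow_ne_zero _ hg0)) c4
  refine ⟨algebraMap k F z / n0, ?_⟩
  rw [div_pow, ← c4]
  field_simp

theorem main (hs : ∀ m (f : F), h ^ m = f ^ r → r ∣ m) :
    ∃ (A : Subalgebra k K) (p : Ideal A), IsModel A ∧ ringKrullDim A = 3 ∧ p.IsMaximal ∧
      HasMld A p w 1 ∧ ∀ m : ℕ, IsCartier A p w m ↔ r ∣ m := by
  obtain ⟨B, v, hB, hAB, hD, ho, ot, vt, vs, hvF⟩ := D.exists_E0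
  have := essFin D.hF D.hK
  obtain ⟨hM, -, hdim, -⟩ := clos_model D.tb_zz
  obtain ⟨q, hq, -, hq'⟩ := hD.2
  have hA : ∀ f ∈ clos k (zz x h r t s), v f ≤ 1 := fun f hf => (loc_unit hq hq').1 f (hAB hf)
  have hv : ∀ c : k, v (algebraMap k K c) ≤ 1 := fun c => hA _ (Subalgebra.algebraMap_mem _ c)
  have hp := centre_prime hA
  have h1 := (Ideal.ne_top_iff_one _).1 hp.ne_top
  have hz : ∀ i, v (zz x h r t s i) < 1 := fun i => by
    fin_cases i
    · exact vt
    · change v (_ * _) < 1
      rw [map_mul, map_pow]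
      exact (mul_le_of_le_one_left' (hvF x)).trans_lt (pow_lt_one₀ zero_le vt two_ne_zero)
    · change v (_ * _) < 1
      rw [map_mul, map_pow]
      exact (mul_le_of_le_one_left' (hvF h)).trans_lt (pow_lt_one₀ zero_le vs D.hr)
  have hr : (0 : ℝ) < r := by exact_mod_cast Nat.pos_of_ne_zero D.hr
  refine ⟨_, centre _ v hA, hM, hdim, ?_, ⟨r, ph y h r t, Nat.pos_of_ne_zero D.hr,
    ⟨D.ph0, 1, h1, fun u hu _ => D.div_ord hu⟩, IsLeast.isGLB ⟨⟨B, v, 1, hB, hAB, hD,
      fun _ => Iff.rfl, ho, ?_⟩, ?_⟩⟩, fun m => ⟨fun H => ?_, ?_⟩⟩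
  · refine Ideal.isMaximal_iff.2 ⟨h1, fun J a hJ ha haJ => ?_⟩
    obtain ⟨c, hc⟩ := res_of_integral hv (clos_le_sub (B := res (algebraMap k K) v hv)
      (fun c => ⟨c, by simp⟩) (fun i => ⟨0, by simpa using hz i⟩) a.2)
    have hc0 : c ≠ 0 := by
      rintro rfl
      exact ha (mem_centre.2 (by simpa using hc))
    have h2 := J.sub_mem haJ (hJ (show a - algebraMap k _ c ∈ centre _ v hA from hc))
    rw [sub_sub_cancel] at h2
    have h3 := J.mul_mem_left (algebraMap k _ c⁻¹) h2
    rwa [← map_mul, inv_mul_cancel₀ hc0, map_one] at h3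
  · rw [D.ord_ph (b := 1) (by rw [v_triv hvF D.hh0, map_one, one_pow]), ot,
      ord_of_one (v_triv hvF (by simpa using D.y0)), ord_of_one (map_one v)]
    push_cast
    field_simp
    ring
  · rintro _ ⟨C, u, n, -, hAC, ⟨hu, p, hp, -, hp'⟩, hc, hn, rfl⟩
    have h2 := D.lower hu (fun c => (loc_unit hp hp').1 _ (C.algebraMap_mem c))
      ((hc ⟨_, gen_mem_clos _ 2⟩).2 (hz 2)) hn
    have h3 : (ord u (ph y h r t) : ℝ) ≤ r * n := by exact_mod_cast h2
    have h4 : (ord u (ph y h r t) : ℝ) / r ≤ n := by rwa [div_le_iff₀ hr, mul_comm]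
    linarith
  · obtain ⟨f, hf⟩ := D.pow_of_cartier hvF vt vs hA H
    exact hs m f hf
  · rintro ⟨j, rfl⟩
    refine ⟨ph y h r t ^ j, pow_ne_zero _ D.ph0, 1, h1, fun u hu _ => ?_⟩
    obtain ⟨n, hn, e⟩ := D.div_ord hu
    refine ⟨n, hn, ?_⟩
    rw [ord_pow, ← e]
    push_cast
    ring

end Dat

theorem exists_curve (k : Type u) [Field k] : ∃ (F : Type u) (_ : Field F) (_ : Algebra k F)
    (x y : F), Transcendental k x ∧ y ^ 2 = x ^ 3 + x ∧ IntermediateField.adjoin k {x, y} = ⊤ := by
  let L := AlgebraicClosure (RatFunc k)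
  let a : L := algebraMap (RatFunc k) L RatFunc.X
  obtain ⟨b, hb⟩ := IsAlgClosed.exists_pow_nat_eq (a ^ 3 + a) two_pos
  have ha : Transcendental k a :=
    (transcendental_algebraMap_iff (algebraMap (RatFunc k) L).injective).2 RatFunc.transcendental_X
  refine ⟨IntermediateField.adjoin k {a, b}, inferInstance, inferInstance,
    ⟨a, IntermediateField.subset_adjoin _ _ (by simp)⟩,
    ⟨b, IntermediateField.subset_adjoin _ _ (by simp)⟩,
    (transcendental_algebraMap_iff (A := L) Subtype.val_injective).1 ha, Subtype.ext hb, ?_⟩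
  apply IntermediateField.lift_injective
  rw [IntermediateField.lift_adjoin, IntermediateField.lift_top, Set.image_pair]

theorem counterexample (k : Type u) [Field k] [IsAlgClosed k] [CharZero k] (n : ℕ) :
    ∃ (K : Type u) (_ : Field K) (_ : Algebra k K) (A : Subalgebra k K) (p : Ideal A)
      (z : Fin 3 → K), IsModel A ∧ ringKrullDim A = 3 ∧ p.IsMaximal ∧ dform k z ≠ 0 ∧
      HasMld A p (dform k z) 1 ∧ ∀ m : ℕ, IsCartier A p (dform k z) m ↔ 2 ^ (n + 1) ∣ m := by
  obtain ⟨F, _, _, x, y, hx, hy, hF⟩ := exists_curve k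
  obtain ⟨h, g, hh, hg, hxg, hβ⟩ := exists_h hx hy hF n
  let P := MvPolynomial (Fin 2) F
  let K := FractionRing P
  have e : (MvPolynomial.aeval ![algebraMap P K (MvPolynomial.X 0),
      algebraMap P K (MvPolynomial.X 1)] : P →ₐ[F] K) = IsScalarTower.toAlgHom F P K := by
    ext i
    rw [MvPolynomial.aeval_X]
    fin_cases i <;> rfl
  have hts : AlgebraicIndependent F ![algebraMap P K (MvPolynomial.X 0),
      algebraMap P K (MvPolynomial.X 1)] := by
    rw [AlgebraicIndependent, e]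
    exact IsFractionRing.injective P K
  have hK : IntermediateField.adjoin F (Set.range ![algebraMap P K (MvPolynomial.X 0),
      algebraMap P K (MvPolynomial.X 1)]) = ⊤ := by
    refine eq_top_iff.2 fun f _ => (IntermediateField.mem_adjoin_range_iff _ _ _).2 ?_
    obtain ⟨a, b, -, rfl⟩ := IsFractionRing.div_surjective (A := P) f
    exact ⟨a, b, by rw [e]; rfl⟩
  obtain ⟨d0, d1, d2, hw, h0, h1, h2⟩ := exists_frame (triple_tb hx hy hF hts hK
    fun E h1 h2 h3 => ⟨h1, h2, fun _ => ⟨1, one_ne_zero, by rwa [pow_one]⟩⟩)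
  have hh0 : h ≠ 0 := by
    rw [hxg]
    exact mul_ne_zero (by simpa using x_ne hx 0) (pow_ne_zero _ hg)
  have D : Dat x y h (2 ^ (n + 1)) _ _ d0 d1 d2 _ :=
    ⟨hx, hy, hF, hts, hK, by positivity, hh, hh0, hβ, hw, h0, h1, h2⟩
  obtain ⟨A, p, H1, H2, H3, H4, H5⟩ := D.main (two_pow_dvd (k := k) hh0 (fun f hf =>
    not_sq hx hy hF (f / g) (by rw [div_pow, ← hf, hxg]; field_simp)) _)
  exact ⟨K, inferInstance, inferInstance, A, p, _, H1, H2, H3, hw.1, H4, H5⟩

end Pool.Agent.MP_dd9dc3_ag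

end
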